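import Pool.Agent.Lib.MP_44a246_nt.NT.Defs
import Pool.Agent.Lib.MP_4d5ce1_nt.Config

/-!
# Height lemmas
-/

set_option autoImplicit false

open NumberField IsDedekindDomain Height
open Pool.Agent.Lib.MP_4d5ce1_nt (ordv fa nv lnv)

namespace Pool.Agent.Lib.MP_44a246_nt.NT

section B

variable {K : Type*} [Field K] [NumberField K] {m : ℕ}

/-- The finite part of the height bounds any finite partial sum. -/
lemma sum_posLog_le (t : K) (ht : t ≠ 0) (U : Finset (HeightOneSpectrum (𝓞 K))) :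
    ∑ v ∈ U, Real.posLog (fa v t) ≤ logHeight₁ t := by
  rw [NumberField.logHeight₁_eq]
  have h1 : ∑ᶠ w : FinitePlace K, Real.posLog (w t) =
      ∑ᶠ v : HeightOneSpectrum (𝓞 K), Real.posLog (fa v t) := by
    rw [← finsum_comp_equiv (FinitePlace.equivHeightOneSpectrum (K := K)).symm]
    rfl
  rw [h1]
  have hfin : {v : HeightOneSpectrum (𝓞 K) | fa v t ≠ 1}.Finite :=
    Pool.Agent.Lib.MP_4d5ce1_nt.finite_fa_ne_one ht
  have hsub : (Function.support fun v : HeightOneSpectrum (𝓞 K) => Real.posLog (fa v t)) ⊆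
      {v | fa v t ≠ 1} := by
    intro v hv h
    apply hv
    simp only [h, Real.posLog_one]
  have hs := hfin.subset hsub
  rw [finsum_eq_sum _ hs]
  have h2 : ∑ v ∈ U, Real.posLog (fa v t) ≤ ∑ v ∈ hs.toFinset, Real.posLog (fa v t) := by
    classical
    rw [← Finset.sum_filter_ne_zero]
    apply Finset.sum_le_sum_of_subset_of_nonneg
    · intro v hv
      rw [Set.Finite.mem_toFinset]
      exact (Finset.mem_filter.1 hv).2
    · intro v _ _
      exact Real.posLog_nonneg
  have h3 : 0 ≤ ∑ w : InfinitePlace K, (w.mult : ℝ) * Real.posLog (w t) :=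
    Finset.sum_nonneg fun w _ => mul_nonneg (Nat.cast_nonneg _) Real.posLog_nonneg
  linarith

/-- Primes dividing the numerator of `t` (or any finite set of them) have total size at most the
height. -/
lemma sum_lnv_le (t : K) (ht : t ≠ 0) (U : Finset (HeightOneSpectrum (𝓞 K)))
    (hU : ∀ v ∈ U, 0 < ordv v t) : ∑ v ∈ U, lnv v ≤ logHeight₁ t := by
  rw [← logHeight₁_inv t]
  refine le_trans (Finset.sum_le_sum fun v hv => ?_) (sum_posLog_le t⁻¹ (inv_ne_zero ht) U)
  rw [Real.posLog_apply, Pool.Agent.Lib.MP_4d5ce1_nt.log_fa v (inv_ne_zero ht),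
    Pool.Agent.Lib.MP_4d5ce1_nt.ordv_inv]
  refine le_max_of_le_right ?_
  have h1 : (1 : ℝ) ≤ ordv v t := by exact_mod_cast hU v hv
  have h2 := Pool.Agent.Lib.MP_4d5ce1_nt.lnv_pos v
  have h3 : Real.log (nv v) = lnv v := rfl
  rw [h3]
  push_cast
  nlinarith

lemma sum_abs_ordv_le (t : K) (ht : t ≠ 0) (U : Finset (HeightOneSpectrum (𝓞 K))) :
    ∑ v ∈ U, |(ordv v t : ℝ)| * lnv v ≤ 2 * logHeight₁ t := by
  have h1 := sum_posLog_le t ht U
  have h2 := sum_posLog_le t⁻¹ (inv_ne_zero ht) U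
  rw [logHeight₁_inv] at h2
  have h3 : ∑ v ∈ U, |(ordv v t : ℝ)| * lnv v =
      ∑ v ∈ U, (Real.posLog (fa v t) + Real.posLog (fa v t⁻¹)) := by
    refine Finset.sum_congr rfl fun v _ => ?_
    rw [Real.posLog_apply, Real.posLog_apply, Pool.Agent.Lib.MP_4d5ce1_nt.log_fa v ht,
      Pool.Agent.Lib.MP_4d5ce1_nt.log_fa v (inv_ne_zero ht),
      Pool.Agent.Lib.MP_4d5ce1_nt.ordv_inv]
    have h4 := Pool.Agent.Lib.MP_4d5ce1_nt.lnv_pos v
    have h5 : Real.log (nv v) = lnv v := rfl
    rw [h5]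
    push_cast
    rcases le_total 0 (ordv v t : ℝ) with h | h
    · rw [abs_of_nonneg h, max_eq_left (by nlinarith), max_eq_right (by nlinarith)]
      ring
    · rw [abs_of_nonpos h, max_eq_right (by nlinarith), max_eq_left (by nlinarith)]
      ring
  rw [h3, Finset.sum_add_distrib]
  linarith

/-- If one coordinate is `1`, the height bounds the heights of the other coordinates. -/
lemma logHeight_coord (x : Fin m → K) (i₀ : Fin m) (h : x i₀ = 1) (i : Fin m) :
    logHeight₁ (x i) ≤ logHeight x := by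
  rw [logHeight₁_eq_logHeight]
  have h1 : (![x i, 1] : Fin 2 → K) = x ∘ ![i, i₀] := by
    ext j
    fin_cases j
    · rfl
    · simp [h]
  rw [h1]
  exact logHeight_comp_le _ _

/-- Strict triangle inequality for a vanishing sum: the minimal order is attained twice. -/
lemma min_twice (v : HeightOneSpectrum (𝓞 K)) (x : Fin m → K) (hx : ∀ i, x i ≠ 0)
    (hsum : ∑ i, x i = 0) (i : Fin m) : ∃ j, j ≠ i ∧ ordv v (x j) ≤ ordv v (x i) := by
  classical
  by_contra hcon
  push Not at hcon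
  have hlt : ∀ j, j ≠ i → fa v (x j) < fa v (x i) := by
    intro j hj
    rw [Pool.Agent.Lib.MP_4d5ce1_nt.fa_eq v (hx j), Pool.Agent.Lib.MP_4d5ce1_nt.fa_eq v (hx i)]
    apply zpow_lt_zpow_right₀ (Pool.Agent.Lib.MP_4d5ce1_nt.one_lt_nv v)
    have := hcon j hj
    omega
  have h1 : x i + ∑ j ∈ Finset.univ.erase i, x j = 0 := by
    rw [Finset.add_sum_erase _ _ (Finset.mem_univ i)]
    exact hsum
  have h2 : fa v (∑ j ∈ Finset.univ.erase i, x j) = fa v (x i) := by
    rw [← Pool.Agent.Lib.MP_4d5ce1_nt.fa_neg v (x i)]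
    congr 1
    linear_combination h1
  rcases (Finset.univ.erase i).eq_empty_or_nonempty with he | hne
  · rw [he, Finset.sum_empty, add_zero] at h1
    exact hx i h1
  · obtain ⟨j₀, hj₀, hmax⟩ := Finset.exists_max_image _ (fun j => fa v (x j)) hne
    have h3 := Pool.Agent.Lib.MP_4d5ce1_nt.fa_sum_le v (Finset.univ.erase i) x (fa v (x j₀))
      (Pool.Agent.Lib.MP_4d5ce1_nt.fa_nonneg v _) hmax
    rw [h2] at h3
    exact absurd (hlt j₀ (Finset.ne_of_mem_erase hj₀)) (not_lt.2 h3)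

end B

end Pool.Agent.Lib.MP_44a246_nt.NT
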