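import Pool.Agent.Lib.MP_44a246_nt.NT.Defs
import Pool.Agent.Lib.MP_4d5ce1_nt.BCodes
import Pool.Agent.Lib.MP_4d5ce1_nt.Master

/-!
Counting elements of bounded height that generate the same fractional ideal, resp. whose orders
outside a small set of primes are prescribed.
-/

set_option autoImplicit false
set_option linter.unusedSectionVars false

open NumberField IsDedekindDomain Height
open Pool.Agent.Lib.MP_4d5ce1_nt

namespace Pool.Agent.Lib.MP_44a246_nt.NT

section aux

variable {K : Type*} [Field K] [NumberField K]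

lemma units_hh (u : K) : hh ((u, 1) : K × K) = logHeight₁ u := by
  rw [NumberField.logHeight₁_eq]
  unfold hh
  congr 1
  · refine Finset.sum_congr rfl fun w _ => ?_
    have h : szi w ((u, 1) : K × K) = max (w u) 1 := by simp [szi]
    rw [h, Real.posLog_eq_log_max_one (apply_nonneg w u), max_comm]
  · rw [← finsum_comp_equiv (FinitePlace.equivHeightOneSpectrum (K := K)).symm]
    refine finsum_congr fun v => ?_
    have h : sz v ((u, 1) : K × K) = max (fa v u) 1 := by simp [sz]
    rw [h, ← max_comm]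
    have h2 : (FinitePlace.equivHeightOneSpectrum.symm v : FinitePlace K) u = fa v u := rfl
    rw [h2, Real.posLog_eq_log_max_one (fa_nonneg v u)]

/-- The finite part of the height. -/
lemma units_sum_log_le (t : K) (U : Finset (HeightOneSpectrum (𝓞 K))) :
    ∑ v ∈ U, Real.posLog (fa v t) ≤ logHeight₁ t := by
  classical
  rw [NumberField.logHeight₁_eq]
  have hinf : 0 ≤ ∑ w : InfinitePlace K, (w.mult : ℝ) * Real.posLog (w t) :=
    Finset.sum_nonneg fun w _ => mul_nonneg (Nat.cast_nonneg _) Real.posLog_nonneg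
  have hfin : ∑ᶠ w : FinitePlace K, Real.posLog (w t) =
      ∑ᶠ v : HeightOneSpectrum (𝓞 K), Real.posLog (fa v t) := by
    rw [← finsum_comp_equiv (FinitePlace.equivHeightOneSpectrum (K := K)).symm]
    rfl
  rw [hfin]
  rcases eq_or_ne t 0 with rfl | ht
  · have h1 : ∀ v : HeightOneSpectrum (𝓞 K), Real.posLog (fa v (0 : K)) = 0 := by
      intro v
      rw [fa_zero, Real.posLog_zero]
    simp only [h1, finsum_zero, Finset.sum_const_zero, add_zero]
    exact hinf
  · have hsupp : (Function.support fun v : HeightOneSpectrum (𝓞 K) =>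
        Real.posLog (fa v t)).Finite := by
      refine (finite_fa_ne_one ht).subset ?_
      intro v hv h1
      apply hv
      have h2 : fa v t = 1 := h1
      simp only [h2, Real.posLog_one]
    have h3 : ∑ v ∈ U, Real.posLog (fa v t) ≤ ∑ᶠ v : HeightOneSpectrum (𝓞 K),
        Real.posLog (fa v t) := by
      rw [finsum_eq_sum_of_support_subset (s := U ∪ hsupp.toFinset) _ (by
        intro v hv
        rw [Finset.coe_union]
        right
        rw [Set.Finite.coe_toFinset]
        exact hv)]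
      exact Finset.sum_le_sum_of_subset_of_nonneg Finset.subset_union_left
        (fun v _ _ => Real.posLog_nonneg)
    linarith

lemma units_abs_ordv_le (t : K) (ht : t ≠ 0) (U : Finset (HeightOneSpectrum (𝓞 K))) :
    ∑ v ∈ U, |(ordv v t : ℝ)| * lnv v ≤ 2 * logHeight₁ t := by
  have h1 := units_sum_log_le t U
  have h2 := units_sum_log_le t⁻¹ U
  rw [logHeight₁_inv] at h2
  have h3 : ∑ v ∈ U, |(ordv v t : ℝ)| * lnv v =
      ∑ v ∈ U, Real.posLog (fa v t) + ∑ v ∈ U, Real.posLog (fa v t⁻¹) := by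
    rw [← Finset.sum_add_distrib]
    refine Finset.sum_congr rfl fun v _ => ?_
    have hd : ∀ x : ℝ, Real.posLog x = max 0 (Real.log x) := fun _ => rfl
    rw [fa_inv, hd, hd, Real.log_inv, log_fa v ht]
    have hl := lnv_pos v
    unfold lnv at hl ⊢
    set a : ℝ := (ordv v t : ℝ)
    rcases le_total 0 a with h | h
    · have e1 : 0 ≤ a * Real.log (nv v) := mul_nonneg h hl.le
      rw [abs_of_nonneg h, max_eq_left (by linarith), max_eq_right (by linarith)]
      ring
    · have e1 : a * Real.log (nv v) ≤ 0 := mul_nonpos_of_nonpos_of_nonneg h hl.le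
      rw [abs_of_nonpos h, max_eq_right (by linarith), max_eq_left (by linarith)]
      ring
  rw [h3]
  linarith

end aux

section A

variable (K : Type*) [Field K] [NumberField K]

/-- Elements of bounded height that generate the same fractional ideal. -/
theorem unit_count (η : ℝ) (hη : 0 < η) :
    ∃ C : ℝ, 0 < C ∧ ∀ β : ℝ, 0 ≤ β → ∀ T : Finset K,
      (∀ t ∈ T, t ≠ 0) →
      (∀ t ∈ T, ∀ t' ∈ T, ∀ v : HeightOneSpectrum (𝓞 K), ordv v t = ordv v t') →
      (∀ t ∈ T, logHeight₁ t ≤ β) →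
      (T.card : ℝ) ≤ C * Real.exp (η * β) := by
  classical
  set α : Fin 2 → K × K := ![(0, 1), (1, 0)] with hαdef
  have hw0 : ∀ u : K, wedge ((u, 1) : K × K) (α 0) = u := by
    intro u; simp [wedge, hαdef]
  have hw1 : ∀ u : K, wedge ((u, 1) : K × K) (α 1) = -1 := by
    intro u; simp [wedge, hαdef]
  have hαw : ∀ l m : Fin 2, l ≠ m → wedge (α l) (α m) = 1 ∨ wedge (α l) (α m) = -1 := by
    intro l m h
    fin_cases l <;> fin_cases m <;> simp [wedge, hαdef] at h ⊢
  have hα : ∀ l m : Fin 2, l ≠ m → wedge (α l) (α m) ≠ 0 := by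
    intro l m h
    rcases hαw l m h with h1 | h1 <;> rw [h1]
    · exact one_ne_zero
    · exact neg_ne_zero.mpr one_ne_zero
  have hsz : ∀ (v : HeightOneSpectrum (𝓞 K)) (l : Fin 2), sz v (α l) = 1 := by
    intro v l
    fin_cases l <;> simp [sz, hαdef]
  have hgood : GoodOff α ∅ := by
    intro v _ l m hlm
    have h1 : fa v (wedge (α l) (α m)) = 1 := by
      rcases hαw l m hlm with h1 | h1 <;> rw [h1]
      · exact fa_one v
      · rw [fa_neg, fa_one]
    unfold ef lamf
    rw [hsz, hsz, h1]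
    simp
  have hef : ∀ (v : HeightOneSpectrum (𝓞 K)) (u : K), u ≠ 0 → ordv v u = 0 → ∀ l : Fin 2,
      ef v (α l) ((u, 1) : K × K) = 0 := by
    intro v u hu h0 l
    have hfa : fa v u = 1 := (fa_eq_one_iff v hu).mpr h0
    have hs : sz v ((u, 1) : K × K) = 1 := by simp [sz, hfa]
    have hw : fa v (wedge ((u, 1) : K × K) (α l)) = 1 := by
      fin_cases l
      · show fa v (wedge ((u, 1) : K × K) (α 0)) = 1
        rw [hw0, hfa]
      · show fa v (wedge ((u, 1) : K × K) (α 1)) = 1
        rw [hw1, fa_neg, fa_one]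
    unfold ef lamf
    rw [hs, hsz, hw]
    simp
  obtain ⟨C, hC, h⟩ := master α hα ∅ hgood 1 le_rfl 0 1 (by decide) (η / 2) (by positivity)
  refine ⟨C, hC, ?_⟩
  intro β hβ T hT0 hTord hTh
  rcases T.eq_empty_or_nonempty with rfl | ⟨t₀, ht₀⟩
  · simp only [Finset.card_empty, Nat.cast_zero]
    positivity
  have ht₀0 := hT0 t₀ ht₀
  set g : K → K × K := fun t => (t / t₀, 1) with hg
  have hginj : Function.Injective g := by
    intro a b hab
    have h1 : a / t₀ = b / t₀ := congrArg Prod.fst hab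
    exact (div_left_inj' ht₀0).mp h1
  have hmem : ∀ x ∈ T.image g, ∃ t ∈ T, x = (t / t₀, 1) := by
    intro x hx
    obtain ⟨t, ht, rfl⟩ := Finset.mem_image.mp hx
    exact ⟨t, ht, rfl⟩
  have hne : ∀ t ∈ T, t / t₀ ≠ 0 := fun t ht => div_ne_zero (hT0 t ht) ht₀0
  have hX0 : ∀ x ∈ T.image g, ∀ l, wedge x (α l) ≠ 0 := by
    intro x hx l
    obtain ⟨t, ht, rfl⟩ := hmem x hx
    fin_cases l
    · show wedge _ (α 0) ≠ 0
      rw [hw0]; exact hne t ht
    · show wedge _ (α 1) ≠ 0
      rw [hw1]; exact neg_ne_zero.mpr one_ne_zero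
  have key := h (2 * β) 0 (T.image g) hX0 ?_ ?_ ?_
  · rw [Finset.card_image_of_injective _ hginj] at key
    have e : (0 : ℝ) + η / 2 * (2 * β) = η * β := by ring
    rw [e] at key
    exact key
  · intro x hx y hy hxy
    obtain ⟨t, ht, rfl⟩ := hmem x hx
    obtain ⟨t', ht', rfl⟩ := hmem y hy
    intro h0
    apply hxy
    have h1 : t / t₀ - t' / t₀ = 0 := by
      have : wedge ((t / t₀, 1) : K × K) (t' / t₀, 1) = t / t₀ - t' / t₀ := by
        simp [wedge]
      rw [← this]; exact h0
    rw [sub_eq_zero.mp h1]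
  · intro x hx
    obtain ⟨t, ht, rfl⟩ := hmem x hx
    rw [units_hh]
    have h1 := logHeight₁_mul_le t t₀⁻¹
    rw [logHeight₁_inv, ← div_eq_mul_inv] at h1
    have h2 := hTh t ht
    have h3 := hTh t₀ ht₀
    linarith
  · intro x hx
    have hsupp : suppF α ∅ x = ∅ := by
      rw [Finset.eq_empty_iff_forall_notMem]
      intro v hv
      obtain ⟨-, l, hl⟩ := (mem_suppF (hX0 x hx) v).mp hv
      obtain ⟨t, ht, rfl⟩ := hmem x hx
      apply hl
      apply hef v _ (hne t ht)
      rw [ordv_div v (hT0 t ht) ht₀0, hTord t ht t₀ ht₀ v, sub_self]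
    refine ⟨∅, Finset.empty_subset _, ?_, ?_⟩
    · intro v hv
      rw [hsupp] at hv
      exact absurd hv (Finset.notMem_empty v)
    · rw [hsupp]
      unfold toolCost
      have hfil : (Finset.univ.filter (fun l : Fin 2 => l ≠ 0 ∧ l ≠ 1)) = ∅ := by decide
      simp [hfil]

/-- Elements of bounded height whose orders outside a small set of primes are prescribed. -/
theorem ideal_count (A₀ η : ℝ) (hA₀ : 0 ≤ A₀) (hη : 0 < η) :
    ∃ C : ℝ, 0 < C ∧ ∀ β : ℝ, 0 ≤ β → ∀ (U : Finset (HeightOneSpectrum (𝓞 K))) (T : Finset K),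
      ∑ v ∈ U, lnv v ≤ A₀ * (β + 1) →
      (∀ t ∈ T, t ≠ 0) →
      (∀ t ∈ T, ∀ t' ∈ T, ∀ v : HeightOneSpectrum (𝓞 K), v ∉ U → ordv v t = ordv v t') →
      (∀ t ∈ T, logHeight₁ t ≤ β) →
      (T.card : ℝ) ≤ C * Real.exp (η * β) := by
  classical
  obtain ⟨C₁, hC₁, h₁⟩ := unit_count K (η / 2) (by positivity)
  obtain ⟨C₂, hC₂, h₂⟩ := code_count_free K 1 le_rfl (max A₀ 2) (η / 4)
    (le_max_of_le_left hA₀) (by positivity)
  refine ⟨C₁ * (C₂ * C₂), by positivity, ?_⟩
  intro β hβ U T hU hT0 hTord hTh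
  have hβ1 : (0:ℝ) ≤ β + 1 := by linarith
  have hU' : ∑ v ∈ U, lnv v ≤ max A₀ 2 * (β + 1) :=
    hU.trans (mul_le_mul_of_nonneg_right (le_max_left _ _) hβ1)
  have h2β : 2 * β ≤ max A₀ 2 * (β + 1) := by
    have h3 : 2 * (β + 1) ≤ max A₀ 2 * (β + 1) :=
      mul_le_mul_of_nonneg_right (le_max_right _ _) hβ1
    linarith
  -- codes
  let code : (HeightOneSpectrum (𝓞 K) → ℕ) → (HeightOneSpectrum (𝓞 K) →₀ ℕ) := fun f =>
    Finsupp.onFinset U (fun v => if v ∈ U then f v else 0) (by
      intro v hv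
      by_contra h
      simp [h] at hv)
  have hcode : ∀ (f : HeightOneSpectrum (𝓞 K) → ℕ) (v : HeightOneSpectrum (𝓞 K)), v ∈ U →
      code f v = f v := by
    intro f v hv
    simp only [code, Finsupp.onFinset_apply, if_pos hv]
  have hcsupp : ∀ f : HeightOneSpectrum (𝓞 K) → ℕ, (code f).support ⊆ U := by
    intro f v hv
    by_contra h
    rw [Finsupp.mem_support_iff] at hv
    apply hv
    simp only [code, Finsupp.onFinset_apply, if_neg h]
  -- cost of codes
  have hccost : ∀ (s : K → HeightOneSpectrum (𝓞 K) → ℕ),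
      (∀ t ∈ T, ∀ v, (s t v : ℝ) ≤ |(ordv v t : ℝ)|) →
      ((T.image fun t => code (s t)).card : ℝ) ≤ C₂ * Real.exp (η / 4 * β) := by
    intro s hs
    apply h₂ β hβ U _ hU'
    · intro κ hκ
      obtain ⟨t, ht, rfl⟩ := Finset.mem_image.mp hκ
      exact hcsupp _
    · intro κ hκ
      obtain ⟨t, ht, rfl⟩ := Finset.mem_image.mp hκ
      refine le_trans ?_ h2β
      refine le_trans ?_ (mul_le_mul_of_nonneg_left (hTh t ht) (by norm_num : (0:ℝ) ≤ 2))
      refine le_trans ?_ (units_abs_ordv_le t (hT0 t ht) U)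
      refine le_trans (Finset.sum_le_sum (g := fun v => |(ordv v t : ℝ)| * lnv v) ?_)
        (Finset.sum_le_sum_of_subset_of_nonneg (hcsupp _)
          (fun v _ _ => mul_nonneg (abs_nonneg _) (lnv_pos v).le))
      intro v hv
      apply mul_le_mul_of_nonneg_right _ (lnv_pos v).le
      have hvU := hcsupp _ hv
      have hne : code (s t) v ≠ 0 := Finsupp.mem_support_iff.mp hv
      have e1 : (code (s t) v - 1) / 1 + 1 = s t v := by
        rw [Nat.div_one]
        rw [hcode _ v hvU] at hne ⊢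
        omega
      rw [e1]
      exact hs t ht v
  set sp : K → HeightOneSpectrum (𝓞 K) → ℕ := fun t v => (ordv v t).toNat with hsp
  set sm : K → HeightOneSpectrum (𝓞 K) → ℕ := fun t v => (-ordv v t).toNat with hsm
  have hp := hccost sp (by
    intro t _ v
    have h3 : ((ordv v t).toNat : ℤ) ≤ |ordv v t| := by
      rw [Int.toNat_eq_max]
      exact max_le (le_abs_self _) (abs_nonneg _)
    simp only [hsp]
    exact_mod_cast h3)
  have hm := hccost sm (by
    intro t _ v
    have h3 : ((-ordv v t).toNat : ℤ) ≤ |ordv v t| := by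
      rw [Int.toNat_eq_max]
      exact max_le (neg_le_abs _) (abs_nonneg _)
    simp only [hsm]
    exact_mod_cast h3)
  set F₁ := T.image fun t => code (sp t) with hF₁
  set F₂ := T.image fun t => code (sm t) with hF₂
  have hmaps : ∀ t ∈ T, (code (sp t), code (sm t)) ∈ F₁ ×ˢ F₂ := by
    intro t ht
    rw [Finset.mem_product]
    exact ⟨Finset.mem_image_of_mem _ ht, Finset.mem_image_of_mem _ ht⟩
  have hfib : ∀ b ∈ F₁ ×ˢ F₂, (T.filter fun t => (code (sp t), code (sm t)) = b).card ≤
      ⌊C₁ * Real.exp (η / 2 * β)⌋₊ := by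
    intro b _
    apply Nat.le_floor
    apply h₁ β hβ
    · intro t ht
      exact hT0 t (Finset.mem_filter.mp ht).1
    · intro t ht t' ht' v
      obtain ⟨htT, htb⟩ := Finset.mem_filter.mp ht
      obtain ⟨htT', htb'⟩ := Finset.mem_filter.mp ht'
      by_cases hv : v ∈ U
      · have e := htb.trans htb'.symm
        have e1 : code (sp t) v = code (sp t') v := by rw [(Prod.mk.inj e).1]
        have e2 : code (sm t) v = code (sm t') v := by rw [(Prod.mk.inj e).2]
        rw [hcode _ v hv, hcode _ v hv] at e1 e2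
        simp only [hsp, hsm] at e1 e2
        omega
      · exact hTord t htT t' htT' v hv
    · intro t ht
      exact hTh t (Finset.mem_filter.mp ht).1
  have hcard := Finset.card_le_mul_card_image_of_maps_to hmaps _ hfib
  rw [Finset.card_product] at hcard
  have hcard' : (T.card : ℝ) ≤ (⌊C₁ * Real.exp (η / 2 * β)⌋₊ : ℝ) * ((F₁.card : ℝ) * F₂.card) := by
    exact_mod_cast hcard
  have hfl : (⌊C₁ * Real.exp (η / 2 * β)⌋₊ : ℝ) ≤ C₁ * Real.exp (η / 2 * β) :=
    Nat.floor_le (by positivity)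
  calc (T.card : ℝ) ≤ (⌊C₁ * Real.exp (η / 2 * β)⌋₊ : ℝ) * ((F₁.card : ℝ) * F₂.card) := hcard'
    _ ≤ (C₁ * Real.exp (η / 2 * β)) *
        ((C₂ * Real.exp (η / 4 * β)) * (C₂ * Real.exp (η / 4 * β))) := by
        apply mul_le_mul hfl _ (by positivity) (by positivity)
        exact mul_le_mul hp hm (Nat.cast_nonneg _) (by positivity)
    _ = C₁ * (C₂ * C₂) * (Real.exp (η / 2 * β) * Real.exp (η / 4 * β) *
        Real.exp (η / 4 * β)) := by ring
    _ = C₁ * (C₂ * C₂) * Real.exp (η * β) := by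
        rw [← Real.exp_add, ← Real.exp_add]
        congr 2
        ring

end A

end Pool.Agent.Lib.MP_44a246_nt.NT
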