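import Mathlib

/-!
# A heavy chain of subsets

For a non-negative weight `s` on the subsets of an `m`-element set there is a maximal chain of
subsets whose weight is at least the total weight divided by `binom(m, m/2)`.
-/

set_option autoImplicit false

namespace Pool.Agent.Lib.MP_44a246_nt.NT

open Finset

/-- Double counting: `u ∉ A`. -/
lemma sum_erase_powerset {α : Type*} [DecidableEq α] (U : Finset α) (g : Finset α → ℝ) :
    ∑ u ∈ U, ∑ A ∈ (U.erase u).powerset, g A =
      ∑ A ∈ U.powerset, ((U.card : ℝ) - A.card) * g A := by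
  have h1 : ∀ u ∈ U, ∑ A ∈ (U.erase u).powerset, g A =
      ∑ A ∈ U.powerset, if u ∉ A then g A else 0 := by
    intro u _
    rw [← Finset.sum_filter]
    apply Finset.sum_congr _ (fun _ _ => rfl)
    ext A
    simp only [mem_powerset, mem_filter, Finset.subset_erase]
  rw [Finset.sum_congr rfl h1, Finset.sum_comm]
  apply Finset.sum_congr rfl
  intro A hA
  rw [← Finset.sum_filter, Finset.sum_const, nsmul_eq_mul]
  congr 1
  have h2 : U.filter (fun u => u ∉ A) = U \ A := by
    ext u; simp
  rw [h2, Finset.card_sdiff_of_subset (mem_powerset.mp hA), Nat.cast_sub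
    (Finset.card_le_card (mem_powerset.mp hA))]

lemma chain_aux {α : Type*} [DecidableEq α] (s : Finset α → ℝ) :
    ∀ (k : ℕ) (U : Finset α), U.card = k → ∃ l : List α, l.Nodup ∧ l.toFinset = U ∧
      ∑ A ∈ U.powerset, s A / (U.card.choose A.card : ℝ) ≤
        ∑ j ∈ Finset.range (l.length + 1), s (l.drop j).toFinset := by
  intro k
  induction k with
  | zero =>
    intro U hU
    have hU' : U = ∅ := Finset.card_eq_zero.mp hU
    subst hU'
    exact ⟨[], List.nodup_nil, rfl, by simp⟩
  | succ n ih =>
    intro U hU
    have hne : U.Nonempty := by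
      rw [← Finset.card_pos, hU]; exact Nat.succ_pos n
    let G : α → ℝ := fun u => ∑ A ∈ (U.erase u).powerset, s A / (n.choose A.card : ℝ)
    -- the average
    have havg : ∑ A ∈ U.powerset, s A / ((n + 1).choose A.card : ℝ) =
        s U + (1 / ((n : ℝ) + 1)) * ∑ u ∈ U, G u := by
      have h1 : ∑ u ∈ U, G u = ∑ A ∈ U.powerset,
          ((U.card : ℝ) - A.card) * (s A / (n.choose A.card : ℝ)) :=
        sum_erase_powerset U (fun A => s A / (n.choose A.card : ℝ))
      rw [h1, Finset.mul_sum]
      have hUmem : U ∈ U.powerset := Finset.mem_powerset_self U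
      rw [← Finset.add_sum_erase _ _ hUmem]
      conv_rhs => rw [← Finset.add_sum_erase _ _ hUmem]
      rw [hU, Nat.choose_self]
      push_cast
      have h2 : ∀ A ∈ U.powerset.erase U, s A / ((n + 1).choose A.card : ℝ) =
          1 / ((n : ℝ) + 1) * (((n : ℝ) + 1 - A.card) * (s A / (n.choose A.card : ℝ))) := by
        intro A hA
        rw [Finset.mem_erase, Finset.mem_powerset] at hA
        have hlt : A.card < n + 1 := by
          rw [← hU]
          exact Finset.card_lt_card (Finset.ssubset_iff_subset_ne.mpr ⟨hA.2, hA.1⟩)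
        have hle : A.card ≤ n := Nat.lt_succ_iff.mp hlt
        have hc := Nat.choose_mul_succ_eq n A.card
        have hc' : (n.choose A.card : ℝ) * ((n : ℝ) + 1) =
            ((n + 1).choose A.card : ℝ) * ((n : ℝ) + 1 - A.card) := by
          have := congrArg (Nat.cast : ℕ → ℝ) hc
          rw [Nat.cast_mul, Nat.cast_mul, Nat.cast_sub (by omega)] at this
          push_cast at this
          exact this
        have p1 : (0 : ℝ) < (n.choose A.card : ℝ) := by
          exact_mod_cast Nat.choose_pos hle
        have p2 : (0 : ℝ) < ((n + 1).choose A.card : ℝ) := by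
          exact_mod_cast Nat.choose_pos (by omega)
        have p3 : (0 : ℝ) < (n : ℝ) + 1 := by positivity
        rw [div_eq_iff p2.ne']
        field_simp
        linear_combination (s A) * hc'
      rw [Finset.sum_congr rfl h2]
      ring
    have hp : (0 : ℝ) < (n : ℝ) + 1 := by positivity
    obtain ⟨u, hu, hle⟩ : ∃ u ∈ U, (1 / ((n : ℝ) + 1)) * ∑ u ∈ U, G u ≤ G u := by
      apply Finset.exists_le_of_sum_le hne
      rw [Finset.sum_const, hU, nsmul_eq_mul]
      push_cast
      rw [← mul_assoc, mul_one_div_cancel hp.ne', one_mul]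
    have hcard : (U.erase u).card = n := by
      rw [Finset.card_erase_of_mem hu, hU]; rfl
    obtain ⟨l, hnd, hl, hsum⟩ := ih (U.erase u) hcard
    have hul : u ∉ l := by
      intro h
      have : u ∈ l.toFinset := List.mem_toFinset.mpr h
      rw [hl] at this
      exact Finset.notMem_erase u U this
    refine ⟨u :: l, List.nodup_cons.mpr ⟨hul, hnd⟩, ?_, ?_⟩
    · rw [List.toFinset_cons, hl, Finset.insert_erase hu]
    · rw [hU, havg, List.length_cons, Finset.sum_range_succ']
      have h3 : (List.drop 0 (u :: l)).toFinset = U := by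
        rw [List.drop_zero, List.toFinset_cons, hl, Finset.insert_erase hu]
      rw [h3]
      have h4 : ∑ j ∈ Finset.range (l.length + 1), s (List.drop (j + 1) (u :: l)).toFinset =
          ∑ j ∈ Finset.range (l.length + 1), s (List.drop j l).toFinset := rfl
      rw [h4]
      have h5 : G u ≤ ∑ j ∈ Finset.range (l.length + 1), s (List.drop j l).toFinset := by
        refine le_trans (le_of_eq ?_) hsum
        rw [hcard]
      linarith

theorem exists_chain (m : ℕ) (s : Finset (Fin m) → ℝ) (hs : ∀ A, 0 ≤ s A) :
    ∃ σ : Equiv.Perm (Fin m), (∑ A, s A) / (m.choose (m / 2) : ℝ) ≤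
      ∑ j ∈ Finset.range (m + 1),
        s ((Finset.univ.filter (fun i : Fin m => j ≤ (i : ℕ))).map σ.toEmbedding) := by
  obtain ⟨l, hnd, hl, hsum⟩ := chain_aux s m Finset.univ (Finset.card_fin m)
  have hlen : l.length = m := by
    rw [← List.toFinset_card_of_nodup hnd, hl, Finset.card_fin]
  have hall : ∀ x, x ∈ l := fun x => by
    rw [← List.mem_toFinset, hl]; exact Finset.mem_univ x
  let e : Fin l.length ≃ Fin m := List.Nodup.getEquivOfForallMemList l hnd hall
  let σ : Equiv.Perm (Fin m) := (finCongr hlen.symm).trans e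
  have hσ : ∀ i : Fin m, σ i = l.get (Fin.cast hlen.symm i) := fun i => rfl
  refine ⟨σ, ?_⟩
  have h1 : ∀ j ∈ Finset.range (m + 1),
      (Finset.univ.filter (fun i : Fin m => j ≤ (i : ℕ))).map σ.toEmbedding =
        (l.drop j).toFinset := by
    intro j _
    ext x
    simp only [Finset.mem_map, Finset.mem_filter, Finset.mem_univ, true_and,
      Equiv.coe_toEmbedding, List.mem_toFinset]
    rw [List.mem_iff_getElem]
    constructor
    · rintro ⟨i, hji, rfl⟩
      refine ⟨(i : ℕ) - j, ?_, ?_⟩
      · rw [List.length_drop, hlen]; have := i.2; omega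
      · rw [hσ, List.getElem_drop, List.get_eq_getElem]
        congr 1
        simp only [Fin.val_cast]
        omega
    · rintro ⟨t, ht, rfl⟩
      rw [List.length_drop, hlen] at ht
      refine ⟨⟨j + t, by omega⟩, by simp, ?_⟩
      rw [hσ, List.getElem_drop, List.get_eq_getElem]
      rfl
  rw [Finset.sum_congr rfl (fun j hj => congrArg s (h1 j hj))]
  have h2 : (∑ A, s A) / (m.choose (m / 2) : ℝ) ≤
      ∑ A ∈ (Finset.univ : Finset (Fin m)).powerset,
        s A / ((Finset.univ : Finset (Fin m)).card.choose A.card : ℝ) := by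
    rw [Finset.powerset_univ, Finset.sum_div, Finset.card_fin]
    apply Finset.sum_le_sum
    intro A _
    apply div_le_div_of_nonneg_left (hs A)
    · have : A.card ≤ m := by
        calc A.card ≤ (Finset.univ : Finset (Fin m)).card := Finset.card_le_univ A
          _ = m := Finset.card_fin m
      exact_mod_cast Nat.choose_pos this
    · exact_mod_cast Nat.choose_le_middle A.card m
  rw [hlen] at hsum
  exact h2.trans hsum

end Pool.Agent.Lib.MP_44a246_nt.NT
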