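import Pool.Agent.Lib.MP_44a246_nt.NT.Units
import Pool.Agent.Lib.MP_44a246_nt.NT.Heights

set_option autoImplicit false

open NumberField IsDedekindDomain Height
open Pool.Agent.Lib.MP_4d5ce1_nt (ordv fa nv lnv)

namespace Pool.Agent.Lib.MP_44a246_nt.NT

/-! ## Module C (NT/Core.lean) : counting with a fixed chain -/

section C

variable (K : Type*) [Field K] [NumberField K]

/-- Outside `W`, either all orders vanish, or exactly the coordinates `i ≥ j` (for one `j ≥ 2`)
have positive order. -/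
def ChainOff {K : Type*} [Field K] [NumberField K] {m : ℕ} (x : Fin m → K)
    (W : Set (HeightOneSpectrum (𝓞 K))) : Prop :=
  ∀ v : HeightOneSpectrum (𝓞 K), v ∉ W → (∀ i, ordv v (x i) = 0) ∨
    ∃ j : ℕ, 2 ≤ j ∧ j < m ∧ ∀ i : Fin m,
      ((i : ℕ) < j → ordv v (x i) = 0) ∧ (j ≤ (i : ℕ) → 0 < ordv v (x i))

namespace CoreAux

/-- Truncation of a tuple. -/
def tr {K : Type*} [Field K] {m : ℕ} (j : ℕ) (x : Fin m → K) : Fin m → K :=
  fun i => if (i : ℕ) < j then x i else 0

/-- Partial sums. -/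
def psum {K : Type*} [Field K] {m : ℕ} (j : ℕ) (x : Fin m → K) : K :=
  ∑ i ∈ Finset.univ.filter (fun i : Fin m => (i : ℕ) < j), x i

lemma tr_tr {K : Type*} [Field K] {m : ℕ} (j : ℕ) (x : Fin m → K) : tr j (tr (j + 1) x) = tr j x := by
  funext i
  unfold tr
  by_cases h : (i : ℕ) < j
  · rw [if_pos h, if_pos h, if_pos (by omega)]
  · rw [if_neg h, if_neg h]

lemma psum_tr {K : Type*} [Field K] {m : ℕ} {j l : ℕ} (h : l ≤ j) (x : Fin m → K) :
    psum l (tr j x) = psum l x := by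
  unfold psum
  refine Finset.sum_congr rfl fun i hi => ?_
  rw [Finset.mem_filter] at hi
  unfold tr
  rw [if_pos (by omega)]

/-- The hypotheses on the set `X`. -/
structure CH {K : Type*} [Field K] [NumberField K] {m : ℕ} [NeZero m] (β : ℝ)
    (W : Set (HeightOneSpectrum (𝓞 K))) (X : Finset (Fin m → K)) : Prop where
  h0 : ∀ x ∈ X, x 0 = 1
  hne : ∀ x ∈ X, ∀ i, x i ≠ 0
  hsum : ∀ x ∈ X, ∑ i, x i = 0
  hps : ∀ x ∈ X, ∀ j : ℕ, 1 ≤ j → j < m → psum j x ≠ 0
  hht : ∀ x ∈ X, ∀ i, logHeight₁ (x i) ≤ β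
  hch : ∀ x ∈ X, ChainOff x W
  hW : ∀ x ∈ X, ∀ x' ∈ X, ∀ v ∈ W, ∀ i, ordv v (x i) = ordv v (x' i)

lemma psum_height {K : Type*} [Field K] [NumberField K] {m : ℕ} [NeZero m] {β : ℝ}
    (x : Fin m → K) (hβ : 0 ≤ β) (hht : ∀ i, logHeight₁ (x i) ≤ β) (j : ℕ) (hj : 1 ≤ j) :
    logHeight₁ (psum j x) ≤ totalWeight K * Real.log m + m * β := by
  unfold psum
  refine (logHeight₁_sum_le _ x).trans (add_le_add ?_ ?_)
  · refine mul_le_mul_of_nonneg_left ?_ (Nat.cast_nonneg _)
    refine Real.log_le_log ?_ ?_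
    · rw [Nat.cast_pos, Finset.card_pos]
      refine ⟨0, ?_⟩
      rw [Finset.mem_filter]
      refine ⟨Finset.mem_univ _, ?_⟩
      rw [Fin.val_zero]
      omega
    · rw [Nat.cast_le]
      exact (Finset.card_filter_le _ _).trans (by simp)
  · refine (Finset.sum_le_sum fun i _ => hht i).trans ?_
    rw [Finset.sum_const, nsmul_eq_mul]
    refine mul_le_mul_of_nonneg_right ?_ hβ
    rw [Nat.cast_le]
    exact (Finset.card_filter_le _ _).trans (by simp)

/-- If all the terms `x i`, `i ≥ j`, have positive order, so has the partial sum. -/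
lemma ordv_psum_pos {K : Type*} [Field K] [NumberField K] {m : ℕ} (v : HeightOneSpectrum (𝓞 K))
    (x : Fin m → K) (hne : ∀ i, x i ≠ 0) (hsum : ∑ i, x i = 0) (j : ℕ)
    (hps : psum j x ≠ 0) (h : ∀ i : Fin m, j ≤ (i : ℕ) → 0 < ordv v (x i)) :
    0 < ordv v (psum j x) := by
  classical
  have h1 : psum j x = -∑ i ∈ Finset.univ.filter (fun i : Fin m => ¬ (i : ℕ) < j), x i := by
    rw [eq_neg_iff_add_eq_zero]
    unfold psum
    rw [Finset.sum_filter_add_sum_filter_not]
    exact hsum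
  have hlt1 : ∀ i : Fin m, j ≤ (i : ℕ) → fa v (x i) < 1 := by
    intro i hi
    rcases lt_or_eq_of_le ((Pool.Agent.Lib.MP_4d5ce1_nt.fa_le_one_iff v (hne i)).2 (h i hi).le)
      with h2 | h2
    · exact h2
    · exact absurd ((Pool.Agent.Lib.MP_4d5ce1_nt.fa_eq_one_iff v (hne i)).1 h2) (h i hi).ne'
  have h2 : fa v (psum j x) < 1 := by
    set s := Finset.univ.filter (fun i : Fin m => ¬ (i : ℕ) < j) with hs
    rcases s.eq_empty_or_nonempty with he | hn
    · rw [h1, he, Finset.sum_empty, neg_zero, Pool.Agent.Lib.MP_4d5ce1_nt.fa_zero]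
      exact zero_lt_one
    · obtain ⟨i0, hi0, hmax⟩ := s.exists_max_image (fun i => fa v (x i)) hn
      rw [h1, Pool.Agent.Lib.MP_4d5ce1_nt.fa_neg]
      refine lt_of_le_of_lt (Pool.Agent.Lib.MP_4d5ce1_nt.fa_sum_le v s x (fa v (x i0))
        (Pool.Agent.Lib.MP_4d5ce1_nt.fa_nonneg v _) hmax) ?_
      apply hlt1
      have := (Finset.mem_filter.1 hi0).2
      omega
  have h3 : 0 ≤ ordv v (psum j x) :=
    (Pool.Agent.Lib.MP_4d5ce1_nt.fa_le_one_iff v hps).1 h2.le
  rcases h3.lt_or_eq with h4 | h4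
  · exact h4
  · exact absurd ((Pool.Agent.Lib.MP_4d5ce1_nt.fa_eq_one_iff v hps).2 h4.symm) h2.ne

open Classical in
/-- The exceptional primes: those where a partial sum has positive order. -/
noncomputable def exc {K : Type*} [Field K] [NumberField K] {m : ℕ} (j : ℕ) (x : Fin m → K) :
    Finset (HeightOneSpectrum (𝓞 K)) :=
  (Finset.Icc 2 j).biUnion fun l =>
    if h : psum l x ≠ 0 then
      ((Pool.Agent.Lib.MP_4d5ce1_nt.finite_ordv_ne_zero h).toFinset).filter
        (fun v => 0 < ordv v (psum l x))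
    else ∅

lemma mem_exc {K : Type*} [Field K] [NumberField K] {m : ℕ} {j : ℕ} {x : Fin m → K}
    {v : HeightOneSpectrum (𝓞 K)} {l : ℕ} (h2 : 2 ≤ l) (hl : l ≤ j) (hps : psum l x ≠ 0)
    (hv : 0 < ordv v (psum l x)) : v ∈ exc j x := by
  classical
  unfold exc
  rw [Finset.mem_biUnion]
  refine ⟨l, Finset.mem_Icc.2 ⟨h2, hl⟩, ?_⟩
  rw [dif_pos hps, Finset.mem_filter, Set.Finite.mem_toFinset]
  exact ⟨hv.ne', hv⟩

lemma sum_biUnion_le' {α ι : Type*} [DecidableEq α] (s : Finset ι) (t : ι → Finset α) (f : α → ℝ)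
    (hf : ∀ a, 0 ≤ f a) : ∑ a ∈ s.biUnion t, f a ≤ ∑ i ∈ s, ∑ a ∈ t i, f a := by
  classical
  induction s using Finset.induction_on with
  | empty => simp
  | insert i s hi ih =>
    rw [Finset.biUnion_insert, Finset.sum_insert hi]
    have h1 := Finset.sum_union_inter (s₁ := t i) (s₂ := s.biUnion t) (f := f)
    have h2 : 0 ≤ ∑ a ∈ t i ∩ s.biUnion t, f a := Finset.sum_nonneg fun a _ => hf a
    linarith

lemma sum_exc_le {K : Type*} [Field K] [NumberField K] {m : ℕ} (j : ℕ) (x : Fin m → K)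
    (c : ℝ) (hc : 0 ≤ c) (h : ∀ l, 2 ≤ l → l ≤ j → logHeight₁ (psum l x) ≤ c) :
    ∑ v ∈ exc j x, lnv v ≤ j * c := by
  classical
  unfold exc
  refine (sum_biUnion_le' _ _ _ (fun v => (Pool.Agent.Lib.MP_4d5ce1_nt.lnv_pos v).le)).trans ?_
  have h1 : ∀ l ∈ Finset.Icc 2 j, (∑ v ∈ (if h : psum l x ≠ 0 then
      ((Pool.Agent.Lib.MP_4d5ce1_nt.finite_ordv_ne_zero h).toFinset).filter
        (fun v => 0 < ordv v (psum l x))
    else ∅), lnv v) ≤ c := by
    intro l hl
    rw [Finset.mem_Icc] at hl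
    split_ifs with hp
    · refine (sum_lnv_le (psum l x) hp _ ?_).trans (h l hl.1 hl.2)
      intro v hv
      exact (Finset.mem_filter.1 hv).2
    · simpa using hc
  refine (Finset.sum_le_sum h1).trans ?_
  rw [Finset.sum_const, nsmul_eq_mul]
  refine mul_le_mul_of_nonneg_right ?_ hc
  rw [Nat.cast_le, Nat.card_Icc]
  omega

/-- One step of the recursion. -/
lemma step (m : ℕ) [NeZero m] (η : ℝ) (hη : 0 < η) (j : ℕ) (hj1 : 1 ≤ j) (hjm : j < m)
    (C : ℝ) (hC : 0 < C) (η₀ : ℝ)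
    (ih : ∀ β : ℝ, 0 ≤ β → ∀ (W : Set (HeightOneSpectrum (𝓞 K))) (X : Finset (Fin m → K)),
      CH β W X → ∀ (_ : DecidableEq (Fin m → K)),
      ((X.image (tr j)).card : ℝ) ≤ C * Real.exp (η₀ * β)) :
    ∃ C' : ℝ, 0 < C' ∧
    ∀ β : ℝ, 0 ≤ β → ∀ (W : Set (HeightOneSpectrum (𝓞 K))) (X : Finset (Fin m → K)),
      CH β W X → ∀ (_ : DecidableEq (Fin m → K)),
      ((X.image (tr (j + 1))).card : ℝ) ≤ C' * Real.exp ((η₀ + η) * β) := by
  classical
  set c₀ : ℝ := totalWeight K * Real.log m with hc₀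
  have hc₀' : 0 ≤ c₀ := by
    rw [hc₀]
    refine mul_nonneg (Nat.cast_nonneg _) (Real.log_natCast_nonneg _)
  set A₀ : ℝ := j * (c₀ + m) with hA₀
  have hA₀' : 0 ≤ A₀ := by rw [hA₀]; positivity
  obtain ⟨C₁, hC₁, h₁⟩ := ideal_count K A₀ η hA₀' hη
  refine ⟨C * C₁, mul_pos hC hC₁, ?_⟩
  intro β hβ W X hX _
  have him : (X.image (tr (j + 1))).image (tr j) = X.image (tr j) := by
    rw [Finset.image_image]
    refine Finset.image_congr ?_
    intro x _
    exact tr_tr j x
  have hfib : ∀ p ∈ (X.image (tr (j + 1))).image (tr j),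
      ((X.image (tr (j + 1))).filter (fun a => tr j a = p)).card ≤ ⌊C₁ * Real.exp (η * β)⌋₊ := by
    intro p hp
    rw [him] at hp
    obtain ⟨x₀, hx₀, hx₀p⟩ := Finset.mem_image.1 hp
    refine Nat.le_floor ?_
    -- the values at coordinate `j`
    set T : Finset K := (X.filter (fun x => tr j x = p)).image (fun x => x ⟨j, hjm⟩) with hT
    have hcard : ((X.image (tr (j + 1))).filter (fun a => tr j a = p)).card ≤ T.card := by
      refine Finset.card_le_card_of_injOn (fun a => a ⟨j, hjm⟩) ?_ ?_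
      · intro a ha
        rw [Finset.mem_coe, Finset.mem_filter] at ha
        obtain ⟨x, hx, rfl⟩ := Finset.mem_image.1 ha.1
        rw [Finset.mem_coe, hT, Finset.mem_image]
        refine ⟨x, Finset.mem_filter.2 ⟨hx, ?_⟩, ?_⟩
        · rw [← tr_tr j x]; exact ha.2
        · unfold tr
          show x ⟨j, hjm⟩ = if ((⟨j, hjm⟩ : Fin m) : ℕ) < j + 1 then x ⟨j, hjm⟩ else 0
          rw [if_pos (Nat.lt_succ_self j)]
      · intro a ha b hb hab
        rw [Finset.mem_coe, Finset.mem_filter] at ha hb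
        obtain ⟨x, hx, rfl⟩ := Finset.mem_image.1 ha.1
        obtain ⟨y, hy, rfl⟩ := Finset.mem_image.1 hb.1
        have h2 : tr j x = tr j y := by rw [← tr_tr j x, ← tr_tr j y, ha.2, hb.2]
        have h3 : x ⟨j, hjm⟩ = y ⟨j, hjm⟩ := by
          have : tr (j + 1) x ⟨j, hjm⟩ = tr (j + 1) y ⟨j, hjm⟩ := hab
          unfold tr at this
          rwa [if_pos (Nat.lt_succ_self j), if_pos (Nat.lt_succ_self j)] at this
        funext i
        unfold tr
        by_cases hi : (i : ℕ) < j + 1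
        · rw [if_pos hi, if_pos hi]
          rcases Nat.lt_succ_iff_lt_or_eq.1 hi with h4 | h4
          · have := congrFun h2 i
            unfold tr at this
            rwa [if_pos h4, if_pos h4] at this
          · have h5 : i = ⟨j, hjm⟩ := Fin.ext h4
            rw [h5]; exact h3
        · rw [if_neg hi, if_neg hi]
    refine (Nat.cast_le.2 hcard).trans ?_
    have hpsx : ∀ x ∈ X, tr j x = p → ∀ l, l ≤ j → psum l x = psum l x₀ := by
      intro x _ hxp l hl
      rw [← psum_tr hl x, ← psum_tr hl x₀, hxp, hx₀p]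
    refine h₁ β hβ (exc j x₀) T ?_ ?_ ?_ ?_
    · refine (sum_exc_le j x₀ (c₀ + m * β) (by positivity) ?_).trans ?_
      · intro l hl2 hlj
        exact psum_height x₀ hβ (hX.hht x₀ hx₀) l (by omega)
      · rw [hA₀, mul_assoc]
        refine mul_le_mul_of_nonneg_left ?_ (Nat.cast_nonneg _)
        have : 0 ≤ c₀ * β := mul_nonneg hc₀' hβ
        have : (0 : ℝ) ≤ m := Nat.cast_nonneg _
        nlinarith
    · intro t ht
      rw [hT, Finset.mem_image] at ht
      obtain ⟨x, hx, rfl⟩ := ht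
      exact hX.hne x (Finset.mem_filter.1 hx).1 _
    · intro t ht t' ht' v hv
      rw [hT, Finset.mem_image] at ht ht'
      obtain ⟨x, hx, rfl⟩ := ht
      obtain ⟨x', hx', rfl⟩ := ht'
      rw [Finset.mem_filter] at hx hx'
      by_cases hvW : v ∈ W
      · exact hX.hW x hx.1 x' hx'.1 v hvW _
      · have key : ∀ y ∈ X, tr j y = p → ordv v (y ⟨j, hjm⟩) = 0 := by
          intro y hy hyp
          rcases hX.hch y hy v hvW with h5 | ⟨l, hl2, hlm, hl⟩
          · exact h5 _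
          · by_cases hlj : l ≤ j
            · exfalso
              apply hv
              have hps : psum l y ≠ 0 := hX.hps y hy l (by omega) hlm
              have hpos := ordv_psum_pos v y (hX.hne y hy) (hX.hsum y hy) l hps
                (fun i hi => (hl i).2 hi)
              rw [hpsx y hy hyp l hlj] at hps hpos
              exact mem_exc hl2 hlj hps hpos
            · exact (hl ⟨j, hjm⟩).1 (by simpa using hlj)
        rw [key x hx.1 hx.2, key x' hx'.1 hx'.2]
    · intro t ht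
      rw [hT, Finset.mem_image] at ht
      obtain ⟨x, hx, rfl⟩ := ht
      exact hX.hht x (Finset.mem_filter.1 hx).1 _
  have h3 := Finset.card_le_mul_card_image (X.image (tr (j + 1))) _ hfib
  rw [him] at h3
  have h4 : ((X.image (tr (j + 1))).card : ℝ) ≤
      (⌊C₁ * Real.exp (η * β)⌋₊ : ℝ) * ((X.image (tr j)).card : ℝ) := by
    exact_mod_cast h3
  have h5 : (⌊C₁ * Real.exp (η * β)⌋₊ : ℝ) ≤ C₁ * Real.exp (η * β) :=
    Nat.floor_le (by positivity)
  have h6 := ih β hβ W X hX inferInstance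
  calc ((X.image (tr (j + 1))).card : ℝ)
      ≤ (⌊C₁ * Real.exp (η * β)⌋₊ : ℝ) * ((X.image (tr j)).card : ℝ) := h4
    _ ≤ (C₁ * Real.exp (η * β)) * (C * Real.exp (η₀ * β)) := by
        refine mul_le_mul h5 ?_ (Nat.cast_nonneg _) (by positivity)
        exact h6
    _ = C * C₁ * Real.exp ((η₀ + η) * β) := by
        rw [add_mul, Real.exp_add]; ring

lemma iter (m : ℕ) [NeZero m] (η : ℝ) (hη : 0 < η) (j : ℕ) (hj1 : 1 ≤ j) (hjm : j < m) :
    ∃ C : ℝ, 0 < C ∧
    ∀ β : ℝ, 0 ≤ β → ∀ (W : Set (HeightOneSpectrum (𝓞 K))) (X : Finset (Fin m → K)),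
      CH β W X → ∀ (_ : DecidableEq (Fin m → K)),
      ((X.image (tr j)).card : ℝ) ≤ C * Real.exp (j * η * β) := by
  induction j, hj1 using Nat.le_induction with
  | base =>
    refine ⟨1, one_pos, ?_⟩
    intro β hβ W X hX _
    have h1 : (X.image (tr 1)).card ≤ 1 := by
      rw [Finset.card_le_one]
      intro a ha b hb
      obtain ⟨x, hx, rfl⟩ := Finset.mem_image.1 ha
      obtain ⟨y, hy, rfl⟩ := Finset.mem_image.1 hb
      funext i
      unfold tr
      by_cases hi : (i : ℕ) < 1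
      · rw [if_pos hi, if_pos hi]
        have : i = 0 := Fin.ext (by rw [Fin.val_zero]; omega)
        rw [this, hX.h0 x hx, hX.h0 y hy]
      · rw [if_neg hi, if_neg hi]
    have h2 : (1 : ℝ) ≤ 1 * Real.exp ((1 : ℕ) * η * β) := by
      rw [one_mul, Real.one_le_exp_iff]; positivity
    exact le_trans (by exact_mod_cast h1) h2
  | succ j hj1 ih =>
    obtain ⟨C, hC, h⟩ := ih (by omega)
    obtain ⟨C', hC', h'⟩ := step K m η hη j hj1 (by omega) C hC (j * η) h
    refine ⟨C', hC', ?_⟩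
    intro β hβ W X hX inst
    refine (h' β hβ W X hX inst).trans (le_of_eq ?_)
    push_cast
    ring_nf

end CoreAux

/-- The case of a fixed set `W` and prescribed orders on `W`. -/
theorem core_fixed (m : ℕ) [NeZero m] (hm : 3 ≤ m) (η : ℝ) (hη : 0 < η) :
    ∃ C : ℝ, 0 < C ∧ ∀ β : ℝ, 0 ≤ β → ∀ (W : Set (HeightOneSpectrum (𝓞 K)))
      (X : Finset (Fin m → K)),
      (∀ x ∈ X, x 0 = 1) →
      (∀ x ∈ X, ∀ i, x i ≠ 0) →
      (∀ x ∈ X, ∑ i, x i = 0) →
      (∀ x ∈ X, ∀ j : ℕ, 1 ≤ j → j < m →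
        ∑ i ∈ Finset.univ.filter (fun i : Fin m => (i : ℕ) < j), x i ≠ 0) →
      (∀ x ∈ X, ∀ i, logHeight₁ (x i) ≤ β) →
      (∀ x ∈ X, ChainOff x W) →
      (∀ x ∈ X, ∀ x' ∈ X, ∀ v ∈ W, ∀ i, ordv v (x i) = ordv v (x' i)) →
      (X.card : ℝ) ≤ C * Real.exp (η * β) := by
  classical
  have hη' : 0 < η / m := div_pos hη (by positivity)
  obtain ⟨C, hC, h⟩ := CoreAux.iter K m (η / m) hη' (m - 1) (by omega) (by omega)
  refine ⟨C, hC, ?_⟩
  intro β hβ W X h0 hne hsum hps hht hch hW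
  have hX : CoreAux.CH β W X := ⟨h0, hne, hsum, hps, hht, hch, hW⟩
  have h1 := h β hβ W X hX inferInstance
  have hinj : Set.InjOn (CoreAux.tr (m - 1)) (X : Set (Fin m → K)) := by
    intro x hx y hy hxy
    have hlt : ∀ i : Fin m, (i : ℕ) < m - 1 → x i = y i := by
      intro i hi
      have := congrFun hxy i
      unfold CoreAux.tr at this
      rwa [if_pos hi, if_pos hi] at this
    have hlast : ∀ i : Fin m, ¬ (i : ℕ) < m - 1 → i = ⟨m - 1, by omega⟩ := by
      intro i hi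
      apply Fin.ext
      have := i.2
      show (i : ℕ) = m - 1
      omega
    have hsx := hsum x hx
    have hsy := hsum y hy
    rw [← Finset.add_sum_erase _ _ (Finset.mem_univ (⟨m - 1, by omega⟩ : Fin m))] at hsx hsy
    have hrest : ∑ i ∈ Finset.univ.erase (⟨m - 1, by omega⟩ : Fin m), x i =
        ∑ i ∈ Finset.univ.erase (⟨m - 1, by omega⟩ : Fin m), y i := by
      refine Finset.sum_congr rfl fun i hi => ?_
      apply hlt
      by_contra hcon
      exact (Finset.mem_erase.1 hi).1 (hlast i hcon)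
    rw [hrest] at hsx
    have hL : x ⟨m - 1, by omega⟩ = y ⟨m - 1, by omega⟩ := by
      have := hsx.trans hsy.symm
      exact add_right_cancel this
    funext i
    by_cases hi : (i : ℕ) < m - 1
    · exact hlt i hi
    · rw [hlast i hi]; exact hL
  rw [Finset.card_image_of_injOn hinj] at h1
  refine h1.trans ?_
  refine mul_le_mul_of_nonneg_left ?_ hC.le
  rw [Real.exp_le_exp]
  refine mul_le_mul_of_nonneg_right ?_ hβ
  have hm0 : (0 : ℝ) < m := by positivity
  rw [mul_div_assoc', div_le_iff₀ hm0, mul_comm]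
  refine mul_le_mul_of_nonneg_left ?_ hη.le
  rw [Nat.cast_le]
  omega

end C

end Pool.Agent.Lib.MP_44a246_nt.NT
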