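import Pool.Agent.Lib.MP_44a246_nt.NT.Core
import Pool.Agent.Lib.MP_44a246_nt.NT.Heights
import Pool.Agent.Lib.MP_4d5ce1_nt.BCodes

set_option autoImplicit false
set_option linter.unusedSectionVars false

/-!
Module C2: counting points with a fixed chain (`core_count`).
-/

open NumberField IsDedekindDomain Height
open Pool.Agent.Lib.MP_4d5ce1_nt (ordv fa nv lnv lnv_pos code_count code_count_free)

namespace Pool.Agent.Lib.MP_44a246_nt.NT

/-- Counting by fibres, with real bounds. -/
lemma card_le_mul_of_fibres {α γ : Type*} [DecidableEq γ] (s : Finset α) (f : α → γ) {A B : ℝ}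
    (hA : ((s.image f).card : ℝ) ≤ A) (hB0 : 0 ≤ B)
    (hB : ∀ b ∈ s.image f, ((s.filter fun a => f a = b).card : ℝ) ≤ B) :
    (s.card : ℝ) ≤ A * B := by
  rw [Finset.card_eq_sum_card_image f s]
  push_cast
  calc ∑ b ∈ s.image f, ((s.filter fun a => f a = b).card : ℝ)
      ≤ ∑ _b ∈ s.image f, B := Finset.sum_le_sum hB
    _ = ((s.image f).card : ℝ) * B := by rw [Finset.sum_const, nsmul_eq_mul]
    _ ≤ A * B := mul_le_mul_of_nonneg_right hA hB0

section C

variable {K : Type*} [Field K] [NumberField K]

open Classical in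
/-- The code of the orders of `t` on `U`: the positive part (`s = true`) or the negative part
(`s = false`). -/
noncomputable def ocode (U : Finset (HeightOneSpectrum (𝓞 K))) (s : Bool) (t : K) :
    HeightOneSpectrum (𝓞 K) →₀ ℕ :=
  Finsupp.onFinset U (fun v => if v ∈ U then
      (if s then (ordv v t).toNat else (-ordv v t).toNat) else 0) (by
    intro v hv
    by_contra h
    exact hv (if_neg h))

lemma ocode_support (U : Finset (HeightOneSpectrum (𝓞 K))) (s : Bool) (t : K) :
    (ocode U s t).support ⊆ U := Finsupp.support_onFinset_subset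

lemma ocode_apply (U : Finset (HeightOneSpectrum (𝓞 K))) (s : Bool) (t : K)
    {v : HeightOneSpectrum (𝓞 K)} (hv : v ∈ U) :
    ocode U s t v = if s then (ordv v t).toNat else (-ordv v t).toNat := by
  unfold ocode
  rw [Finsupp.onFinset_apply, if_pos hv]

lemma ordv_eq_of_ocode (U : Finset (HeightOneSpectrum (𝓞 K))) {t t' : K}
    (h : ∀ s, ocode U s t = ocode U s t') {v : HeightOneSpectrum (𝓞 K)} (hv : v ∈ U) :
    ordv v t = ordv v t' := by
  have h1 := DFunLike.congr_fun (h true) v
  have h2 := DFunLike.congr_fun (h false) v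
  rw [ocode_apply U _ _ hv, ocode_apply U _ _ hv] at h1 h2
  simp only [if_true, Bool.false_eq_true, if_false] at h1 h2
  omega

lemma ocode_degree (U : Finset (HeightOneSpectrum (𝓞 K))) (s : Bool) (t : K) (ht : t ≠ 0) :
    ∑ v ∈ (ocode U s t).support, (((ocode U s t v - 1) / 1 + 1 : ℕ) : ℝ) * lnv v ≤
      2 * logHeight₁ t := by
  refine le_trans ?_ (sum_abs_ordv_le t ht U)
  calc ∑ v ∈ (ocode U s t).support, (((ocode U s t v - 1) / 1 + 1 : ℕ) : ℝ) * lnv v
      ≤ ∑ v ∈ (ocode U s t).support, |(ordv v t : ℝ)| * lnv v := by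
        refine Finset.sum_le_sum fun v hv => ?_
        refine mul_le_mul_of_nonneg_right ?_ (lnv_pos v).le
        have hne : ocode U s t v ≠ 0 := Finsupp.mem_support_iff.mp hv
        have hU := ocode_support U s t hv
        rw [Nat.div_one, Nat.sub_add_cancel (Nat.one_le_iff_ne_zero.mpr hne)]
        rw [ocode_apply U s t hU] at hne ⊢
        have hz : (((if s then (ordv v t).toNat else (-ordv v t).toNat : ℕ) : ℤ)) ≤
            |ordv v t| := by
          cases s
          · simp only [Bool.false_eq_true, if_false]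
            have := neg_abs_le (ordv v t)
            have := abs_nonneg (ordv v t)
            omega
          · simp only [if_true]
            have := le_abs_self (ordv v t)
            have := abs_nonneg (ordv v t)
            omega
        exact_mod_cast hz
    _ ≤ ∑ v ∈ U, |(ordv v t : ℝ)| * lnv v :=
        Finset.sum_le_sum_of_subset_of_nonneg (ocode_support U s t) fun v _ _ =>
          mul_nonneg (abs_nonneg _) (lnv_pos v).le

open Classical in
/-- The indicator of a finite set of primes. -/
noncomputable def icode (U : Finset (HeightOneSpectrum (𝓞 K))) : HeightOneSpectrum (𝓞 K) →₀ ℕ :=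
  Finsupp.onFinset U (fun v => if v ∈ U then 1 else 0) (by
    intro v hv
    by_contra h
    exact hv (if_neg h))

lemma icode_support (U : Finset (HeightOneSpectrum (𝓞 K))) : (icode U).support = U := by
  ext v
  rw [Finsupp.mem_support_iff]
  unfold icode
  rw [Finsupp.onFinset_apply]
  by_cases h : v ∈ U
  · simp [h]
  · simp [h]

lemma icode_apply (U : Finset (HeightOneSpectrum (𝓞 K))) {v : HeightOneSpectrum (𝓞 K)}
    (hv : v ∈ U) : icode U v = 1 := by
  unfold icode
  rw [Finsupp.onFinset_apply, if_pos hv]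

lemma icode_injective : Function.Injective (icode : Finset (HeightOneSpectrum (𝓞 K)) → _) := by
  intro U U' h
  rw [← icode_support U, ← icode_support U', h]

variable (K)

/-- Counting points with a fixed chain. -/
theorem core_count (m : ℕ) [NeZero m] (hm : 3 ≤ m) (A₀ η : ℝ) (hA₀ : 0 ≤ A₀) (hη : 0 < η) :
    ∃ C : ℝ, 0 < C ∧ ∀ β z : ℝ, 0 ≤ β → z ≤ A₀ * (β + 1) →
      ∀ (X : Finset (Fin m → K)) (W : (Fin m → K) → Finset (HeightOneSpectrum (𝓞 K))),
      (∀ x ∈ X, x 0 = 1) →
      (∀ x ∈ X, ∀ i, x i ≠ 0) →
      (∀ x ∈ X, ∑ i, x i = 0) →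
      (∀ x ∈ X, ∀ j : ℕ, 1 ≤ j → j < m →
        ∑ i ∈ Finset.univ.filter (fun i : Fin m => (i : ℕ) < j), x i ≠ 0) →
      (∀ x ∈ X, ∀ i, logHeight₁ (x i) ≤ β) →
      (∀ x ∈ X, ChainOff x (W x)) →
      (∀ x ∈ X, ∑ v ∈ W x, lnv v ≤ z) →
      (X.card : ℝ) ≤ C * Real.exp (z + η * β) := by
  classical
  have hm0 : (0 : ℝ) < m := by
    have : 0 < m := by omega
    exact_mod_cast this
  obtain ⟨C₁, hC₁, h₁⟩ := code_count K 1 le_rfl A₀ (η / 3) hA₀ (by positivity)
  obtain ⟨C₂, hC₂, h₂⟩ := code_count_free K 1 le_rfl (A₀ + 2) (η / (6 * m)) (by positivity)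
    (by positivity)
  obtain ⟨C₃, hC₃, h₃⟩ := core_fixed K m hm (η / 3) (by positivity)
  refine ⟨C₁ * (C₂ ^ (2 * m) * C₃), by positivity, ?_⟩
  intro β z hβ hz X W hx0 hxne hxsum hxpart hxh hxW hxz
  -- number of sets `W x`
  have hA : ((X.image W).card : ℝ) ≤ C₁ * Real.exp (z + η / 3 * β) := by
    have e1 : (X.image W).card = ((X.image W).image icode).card :=
      (Finset.card_image_of_injective _ icode_injective).symm
    rw [e1]
    apply h₁ β z hβ
    · intro κ hκ
      obtain ⟨U, hU, rfl⟩ := Finset.mem_image.mp hκ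
      obtain ⟨x, hx, rfl⟩ := Finset.mem_image.mp hU
      rw [icode_support]
      exact hxz x hx
    · intro κ hκ
      obtain ⟨U, hU, rfl⟩ := Finset.mem_image.mp hκ
      obtain ⟨x, hx, rfl⟩ := Finset.mem_image.mp hU
      refine le_trans (le_of_eq ?_) ((hxz x hx).trans hz)
      rw [icode_support]
      refine Finset.sum_congr rfl fun v hv => ?_
      rw [icode_apply _ hv]
      norm_num
  -- the fibres
  have hB : ∀ U ∈ X.image W, ((X.filter fun x => W x = U).card : ℝ) ≤
      (C₂ * Real.exp (η / (6 * m) * β)) ^ (2 * m) * (C₃ * Real.exp (η / 3 * β)) := by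
    intro U hU
    have hUz : ∑ v ∈ U, lnv v ≤ (A₀ + 2) * (β + 1) := by
      obtain ⟨x, hx, rfl⟩ := Finset.mem_image.mp hU
      refine ((hxz x hx).trans hz).trans ?_
      nlinarith
    set Y := X.filter fun x => W x = U with hY
    have hYX : ∀ x ∈ Y, x ∈ X ∧ W x = U := fun x hx => Finset.mem_filter.mp hx
    set key : (Fin m → K) → (Fin m × Bool → HeightOneSpectrum (𝓞 K) →₀ ℕ) :=
      fun x p => ocode U p.2 (x p.1) with hkey
    apply card_le_mul_of_fibres Y key
    · -- number of codes
      have hsub : Y.image key ⊆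
          Fintype.piFinset fun p : Fin m × Bool => Y.image fun x => ocode U p.2 (x p.1) := by
        intro k hk
        obtain ⟨x, hx, rfl⟩ := Finset.mem_image.mp hk
        rw [Fintype.mem_piFinset]
        intro p
        exact Finset.mem_image.mpr ⟨x, hx, rfl⟩
      have hcard : ((Y.image key).card : ℝ) ≤
          ∏ p : Fin m × Bool, ((Y.image fun x => ocode U p.2 (x p.1)).card : ℝ) := by
        have := Finset.card_le_card hsub
        rw [Fintype.card_piFinset] at this
        exact_mod_cast this
      refine hcard.trans ?_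
      have hone : ∀ p : Fin m × Bool, ((Y.image fun x => ocode U p.2 (x p.1)).card : ℝ) ≤
          C₂ * Real.exp (η / (6 * m) * β) := by
        intro p
        apply h₂ β hβ U _ hUz
        · intro κ hκ
          obtain ⟨x, hx, rfl⟩ := Finset.mem_image.mp hκ
          exact ocode_support _ _ _
        · intro κ hκ
          obtain ⟨x, hx, rfl⟩ := Finset.mem_image.mp hκ
          have hxX := (hYX x hx).1
          refine (ocode_degree U p.2 (x p.1) (hxne x hxX p.1)).trans ?_
          have := hxh x hxX p.1
          nlinarith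
      calc ∏ p : Fin m × Bool, ((Y.image fun x => ocode U p.2 (x p.1)).card : ℝ)
          ≤ ∏ _p : Fin m × Bool, C₂ * Real.exp (η / (6 * m) * β) :=
            Finset.prod_le_prod (fun p _ => Nat.cast_nonneg _) fun p _ => hone p
        _ = (C₂ * Real.exp (η / (6 * m) * β)) ^ (2 * m) := by
            rw [Finset.prod_const, Finset.card_univ, Fintype.card_prod, Fintype.card_fin,
              Fintype.card_bool, mul_comm m 2]
    · positivity
    · -- the points with given codes
      intro k hk
      have hZ : ∀ x ∈ Y.filter (fun x => key x = k), x ∈ X ∧ W x = U ∧ key x = k := by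
        intro x hx
        obtain ⟨h1, h2⟩ := Finset.mem_filter.mp hx
        exact ⟨(hYX x h1).1, (hYX x h1).2, h2⟩
      apply h₃ β hβ (U : Set (HeightOneSpectrum (𝓞 K)))
      · intro x hx; exact hx0 x (hZ x hx).1
      · intro x hx; exact hxne x (hZ x hx).1
      · intro x hx; exact hxsum x (hZ x hx).1
      · intro x hx; exact hxpart x (hZ x hx).1
      · intro x hx; exact hxh x (hZ x hx).1
      · intro x hx
        have := hxW x (hZ x hx).1
        rw [(hZ x hx).2.1] at this
        exact this
      · intro x hx x' hx' v hv i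
        refine ordv_eq_of_ocode U (fun s => ?_) (Finset.mem_coe.mp hv)
        have h1 := congrFun ((hZ x hx).2.2.trans (hZ x' hx').2.2.symm) (i, s)
        exact h1
  refine (card_le_mul_of_fibres X W hA (by positivity) hB).trans (le_of_eq ?_)
  have e1 : (Real.exp (η / (6 * m) * β)) ^ (2 * m) = Real.exp (η / 3 * β) := by
    rw [← Real.exp_nat_mul]
    congr 1
    push_cast
    field_simp
    ring
  rw [mul_pow, e1]
  have e2 : Real.exp (z + η * β) =
      Real.exp (z + η / 3 * β) * (Real.exp (η / 3 * β) * Real.exp (η / 3 * β)) := by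
    rw [← Real.exp_add, ← Real.exp_add]
    congr 1
    ring
  rw [e2]
  ring

end C

end Pool.Agent.Lib.MP_44a246_nt.NT
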