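import Mathlib

set_option autoImplicit false

open NumberField IsDedekindDomain

namespace Pool.Agent.Lib.MP_44a246_nt.NT

/-- The truncated counting function of the divisor `Z_0 ⋯ Z_{m-1} = 0` at the point
`[x_0 : … : x_{m-1}]`: the sum of `log N(v)` over the primes `v` outside `S` at which the
`v`-adic orders of the coordinates are not all equal. -/
noncomputable def radS {K : Type*} [Field K] [NumberField K] {m : ℕ}
    (S : Set (HeightOneSpectrum (𝓞 K))) (x : Fin m → K) : ℝ :=
  ∑ᶠ (v : HeightOneSpectrum (𝓞 K))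
    (_ : v ∉ S ∧ ∃ i j, v.valuation K (x i) ≠ v.valuation K (x j)),
    Real.log (Ideal.absNorm v.asIdeal : ℝ)

end Pool.Agent.Lib.MP_44a246_nt.NT
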