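import Pool.Agent.Lib.MP_44a246_nt.NT.Chain
import Pool.Agent.Lib.MP_44a246_nt.NT.CoreCount
import Pool.Agent.Lib.MP_44a246_nt.NT.Heights

set_option autoImplicit false
set_option linter.unusedSectionVars false

open NumberField IsDedekindDomain Height
open Pool.Agent.Lib.MP_4d5ce1_nt (ordv fa nv lnv lnv_pos ordv_div ordv_one finite_ordv_ne_zero)

namespace Pool.Agent.Lib.MP_44a246_nt.NT

section E

variable {K : Type*} [Field K] [NumberField K] {m : ℕ}

/-- The coordinates whose order is not minimal. -/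
noncomputable def sup (v : HeightOneSpectrum (𝓞 K)) (x : Fin m → K) : Finset (Fin m) :=
  Finset.univ.filter (fun i => ∃ j, ordv v (x j) < ordv v (x i))

lemma mem_sup (v : HeightOneSpectrum (𝓞 K)) (x : Fin m → K) (i : Fin m) :
    i ∈ sup v x ↔ ∃ j, ordv v (x j) < ordv v (x i) := by
  unfold sup; simp

lemma valuation_ne_iff (v : HeightOneSpectrum (𝓞 K)) {a b : K} (ha : a ≠ 0) (hb : b ≠ 0) :
    v.valuation K a ≠ v.valuation K b ↔ ordv v a ≠ ordv v b := by
  have ha' : v.valuation K a ≠ 0 := (Valuation.ne_zero_iff _).mpr ha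
  have hb' : v.valuation K b ≠ 0 := (Valuation.ne_zero_iff _).mpr hb
  unfold ordv
  rw [not_iff_not, neg_inj]
  constructor
  · intro h; rw [h]
  · intro h
    rw [← WithZero.exp_log ha', h, WithZero.exp_log hb']

lemma sup_nonempty_iff (v : HeightOneSpectrum (𝓞 K)) (x : Fin m → K) (hx : ∀ i, x i ≠ 0) :
    (sup v x).Nonempty ↔ ∃ i j, v.valuation K (x i) ≠ v.valuation K (x j) := by
  constructor
  · rintro ⟨i, hi⟩
    obtain ⟨j, hj⟩ := (mem_sup v x i).mp hi
    exact ⟨i, j, (valuation_ne_iff v (hx i) (hx j)).mpr hj.ne'⟩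
  · rintro ⟨i, j, hij⟩
    rcases lt_or_gt_of_ne ((valuation_ne_iff v (hx i) (hx j)).mp hij) with h | h
    · exact ⟨j, (mem_sup v x j).mpr ⟨i, h⟩⟩
    · exact ⟨i, (mem_sup v x i).mpr ⟨j, h⟩⟩

lemma rel_finite (S : Set (HeightOneSpectrum (𝓞 K))) (x : Fin m → K) (hx : ∀ i, x i ≠ 0) :
    {v : HeightOneSpectrum (𝓞 K) | v ∉ S ∧ (sup v x).Nonempty}.Finite := by
  refine (Set.finite_iUnion fun i => finite_ordv_ne_zero (hx i)).subset ?_
  rintro v ⟨_, i, hi⟩
  obtain ⟨j, hj⟩ := (mem_sup v x i).mp hi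
  rw [Set.mem_iUnion]
  by_cases h : ordv v (x i) = 0
  · exact ⟨j, show ordv v (x j) ≠ 0 by omega⟩
  · exact ⟨i, h⟩

open Classical in
/-- The relevant primes. -/
noncomputable def PF (S : Set (HeightOneSpectrum (𝓞 K))) (x : Fin m → K) :
    Finset (HeightOneSpectrum (𝓞 K)) :=
  if h : {v : HeightOneSpectrum (𝓞 K) | v ∉ S ∧ (sup v x).Nonempty}.Finite
    then h.toFinset else ∅

lemma mem_PF (S : Set (HeightOneSpectrum (𝓞 K))) {x : Fin m → K} (hx : ∀ i, x i ≠ 0)
    (v : HeightOneSpectrum (𝓞 K)) : v ∈ PF S x ↔ v ∉ S ∧ (sup v x).Nonempty := by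
  unfold PF
  rw [dif_pos (rel_finite S x hx), Set.Finite.mem_toFinset]
  rfl

lemma radS_eq (S : Set (HeightOneSpectrum (𝓞 K))) {x : Fin m → K} (hx : ∀ i, x i ≠ 0) :
    radS S x = ∑ v ∈ PF S x, lnv v := by
  unfold radS
  have h : ∀ v : HeightOneSpectrum (𝓞 K),
      (∑ᶠ (_ : v ∉ S ∧ ∃ i j, v.valuation K (x i) ≠ v.valuation K (x j)),
        Real.log (Ideal.absNorm v.asIdeal : ℝ)) =
      ∑ᶠ (_ : v ∈ (PF S x : Set (HeightOneSpectrum (𝓞 K)))), lnv v := by
    intro v
    have h2 : (v ∉ S ∧ ∃ i j, v.valuation K (x i) ≠ v.valuation K (x j)) ↔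
        v ∈ (PF S x : Set (HeightOneSpectrum (𝓞 K))) := by
      rw [Finset.mem_coe, mem_PF S hx, sup_nonempty_iff v x hx]
    exact finsum_congr_Prop (propext h2) (fun _ => rfl)
  rw [finsum_congr h, finsum_mem_coe_finset]

/-- At least two coordinates have minimal order. -/
lemma sup_card (v : HeightOneSpectrum (𝓞 K)) (x : Fin m → K) (hm : 0 < m)
    (hx : ∀ i, x i ≠ 0) (hsum : ∑ i, x i = 0) : (sup v x).card + 2 ≤ m := by
  have : Nonempty (Fin m) := ⟨⟨0, hm⟩⟩
  obtain ⟨i, _, hi⟩ := Finset.exists_min_image (Finset.univ : Finset (Fin m))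
    (fun i => ordv v (x i)) Finset.univ_nonempty
  obtain ⟨j, hji, hj⟩ := min_twice v x hx hsum i
  have h1 : i ∉ sup v x := by
    rw [mem_sup]
    rintro ⟨k, hk⟩
    have := hi k (Finset.mem_univ k)
    omega
  have h2 : j ∉ sup v x := by
    rw [mem_sup]
    rintro ⟨k, hk⟩
    have := hi k (Finset.mem_univ k)
    omega
  have h3 : ({i, j} : Finset (Fin m)) ⊆ (sup v x)ᶜ := by
    intro k hk
    rw [Finset.mem_insert, Finset.mem_singleton] at hk
    rw [Finset.mem_compl]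
    rcases hk with rfl | rfl
    · exact h1
    · exact h2
  have h4 := Finset.card_le_card h3
  rw [Finset.card_pair hji.symm, Finset.card_compl, Fintype.card_fin] at h4
  have h5 := Finset.card_le_univ (sup v x)
  rw [Fintype.card_fin] at h5
  omega

/-- The tail `{i : j ≤ i}`. -/
def tail (m j : ℕ) : Finset (Fin m) := Finset.univ.filter (fun i : Fin m => j ≤ (i : ℕ))

lemma mem_tail {j : ℕ} {i : Fin m} : i ∈ tail m j ↔ j ≤ (i : ℕ) := by
  unfold tail; simp

lemma tail_inj {j j' : ℕ} (hj : j < m) (hj' : j' < m) (h : tail m j = tail m j') : j = j' := by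
  have h1 : (⟨j, hj⟩ : Fin m) ∈ tail m j' := h ▸ mem_tail.mpr le_rfl
  have h2 : (⟨j', hj'⟩ : Fin m) ∈ tail m j := h ▸ mem_tail.mpr le_rfl
  have h3 := mem_tail.mp h1
  have h4 := mem_tail.mp h2
  simp only at h3 h4
  omega

lemma tail_card {j : ℕ} (hj : j ≤ m) : (tail m j).card = m - j := by
  unfold tail
  have h := Finset.card_filter_add_card_filter_not (s := (Finset.univ : Finset (Fin m)))
    (fun i : Fin m => (i : ℕ) < j)
  have h1 : (Finset.univ.filter (fun i : Fin m => (i : ℕ) < j)).card = j := by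
    rw [Fin.card_filter_val_lt]
    omega
  rw [h1, Finset.card_univ, Fintype.card_fin] at h
  have h2 : Finset.univ.filter (fun i : Fin m => j ≤ (i : ℕ)) =
      Finset.univ.filter (fun i : Fin m => ¬ (i : ℕ) < j) := by
    ext i; simp
  rw [h2]
  omega

/-- The permuted and normalised point. -/
noncomputable def yp [NeZero m] (σ : Equiv.Perm (Fin m)) (x : Fin m → K) : Fin m → K :=
  fun i => x (σ i) / x (σ 0)

lemma ordv_yp [NeZero m] (v : HeightOneSpectrum (𝓞 K)) (σ : Equiv.Perm (Fin m)) {x : Fin m → K}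
    (hx : ∀ i, x i ≠ 0) (i : Fin m) :
    ordv v (yp σ x i) = ordv v (x (σ i)) - ordv v (x (σ 0)) := by
  unfold yp
  rw [ordv_div v (hx _) (hx _)]

lemma sup_yp [NeZero m] (v : HeightOneSpectrum (𝓞 K)) (σ : Equiv.Perm (Fin m)) {x : Fin m → K}
    (hx : ∀ i, x i ≠ 0) : (sup v (yp σ x)).map σ.toEmbedding = sup v x := by
  ext i
  rw [Finset.mem_map, mem_sup]
  constructor
  · rintro ⟨a, ha, rfl⟩
    obtain ⟨j, hj⟩ := (mem_sup _ _ _).mp ha
    rw [ordv_yp v σ hx, ordv_yp v σ hx] at hj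
    exact ⟨σ j, by simp only [Equiv.toEmbedding_apply]; omega⟩
  · rintro ⟨j, hj⟩
    refine ⟨σ.symm i, (mem_sup _ _ _).mpr ⟨σ.symm j, ?_⟩, by simp⟩
    rw [ordv_yp v σ hx, ordv_yp v σ hx]
    simp only [Equiv.apply_symm_apply]
    omega

lemma yp_ne_zero [NeZero m] (σ : Equiv.Perm (Fin m)) {x : Fin m → K} (hx : ∀ i, x i ≠ 0)
    (i : Fin m) : yp σ x i ≠ 0 := div_ne_zero (hx _) (hx _)

lemma PF_yp [NeZero m] (S : Set (HeightOneSpectrum (𝓞 K))) (σ : Equiv.Perm (Fin m))
    {x : Fin m → K} (hx : ∀ i, x i ≠ 0) : PF S (yp σ x) = PF S x := by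
  ext v
  rw [mem_PF S (yp_ne_zero σ hx), mem_PF S hx, ← sup_yp v σ hx, Finset.map_nonempty]

open Classical in
/-- The exceptional primes of a point. -/
noncomputable def WF (S : Finset (HeightOneSpectrum (𝓞 K))) (y : Fin m → K) :
    Finset (HeightOneSpectrum (𝓞 K)) :=
  S ∪ (PF (S : Set (HeightOneSpectrum (𝓞 K))) y).filter
    (fun v => ¬ ∃ j : ℕ, 2 ≤ j ∧ j < m ∧ sup v y = tail m j)

open Classical in
lemma chainOff_WF [NeZero m] (S : Finset (HeightOneSpectrum (𝓞 K))) {y : Fin m → K}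
    (hy : ∀ i, y i ≠ 0) (hy0 : y 0 = 1) : ChainOff y (WF S y : Set _) := by
  intro v hv
  have h0 : ordv v (y 0) = 0 := by rw [hy0]; exact ordv_one v
  rw [Finset.mem_coe] at hv
  unfold WF at hv
  rw [Finset.mem_union, Finset.mem_filter, mem_PF _ hy, Finset.mem_coe] at hv
  push Not at hv
  obtain ⟨hvS, hv⟩ := hv
  by_cases hne : (sup v y).Nonempty
  · right
    obtain ⟨j, hj2, hjm, hj⟩ := hv ⟨hvS, hne⟩
    have hzero : (0 : Fin m) ∉ sup v y := by
      rw [hj, mem_tail]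
      have : ((0 : Fin m) : ℕ) = 0 := by simp
      omega
    have hmin : ∀ k, 0 ≤ ordv v (y k) := by
      intro k
      by_contra hk
      apply hzero
      rw [mem_sup]
      exact ⟨k, by omega⟩
    refine ⟨j, hj2, hjm, fun i => ⟨fun hi => ?_, fun hi => ?_⟩⟩
    · have h1 : i ∉ sup v y := by
        rw [hj, mem_tail]; omega
      have h2 := hmin i
      by_contra h3
      apply h1
      rw [mem_sup]
      exact ⟨0, by omega⟩
    · have h1 : i ∈ sup v y := by
        rw [hj, mem_tail]; omega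
      obtain ⟨k, hk⟩ := (mem_sup _ _ _).mp h1
      have := hmin k
      omega
  · left
    intro i
    by_contra hi
    apply hne
    rcases lt_or_gt_of_ne hi with h | h
    · exact ⟨0, (mem_sup _ _ _).mpr ⟨i, by omega⟩⟩
    · exact ⟨i, (mem_sup _ _ _).mpr ⟨0, by omega⟩⟩

open Classical in
/-- The mass of a set of coordinates. -/
noncomputable def sm (S : Finset (HeightOneSpectrum (𝓞 K))) (x : Fin m → K)
    (A : Finset (Fin m)) : ℝ :=
  ∑ v ∈ (PF (S : Set (HeightOneSpectrum (𝓞 K))) x).filter (fun v => sup v x = A), lnv v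

lemma sm_nonneg (S : Finset (HeightOneSpectrum (𝓞 K))) (x : Fin m → K) (A : Finset (Fin m)) :
    0 ≤ sm S x A := Finset.sum_nonneg fun v _ => (lnv_pos v).le

lemma sm_sum (S : Finset (HeightOneSpectrum (𝓞 K))) (x : Fin m → K) :
    ∑ A, sm S x A = ∑ v ∈ PF (S : Set (HeightOneSpectrum (𝓞 K))) x, lnv v := by
  classical
  unfold sm
  convert Finset.sum_fiberwise (PF (S : Set (HeightOneSpectrum (𝓞 K))) x) (fun v => sup v x)
    (fun v => lnv v)

lemma sm_yp [NeZero m] (S : Finset (HeightOneSpectrum (𝓞 K))) (σ : Equiv.Perm (Fin m))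
    {x : Fin m → K} (hx : ∀ i, x i ≠ 0) (A : Finset (Fin m)) :
    sm S x (A.map σ.toEmbedding) = sm S (yp σ x) A := by
  classical
  unfold sm
  rw [PF_yp _ σ hx]
  refine Finset.sum_congr ?_ fun _ _ => rfl
  ext v
  rw [Finset.mem_filter, Finset.mem_filter, ← sup_yp v σ hx, Finset.map_inj]

lemma sm_eq_zero (S : Finset (HeightOneSpectrum (𝓞 K))) {x : Fin m → K} (hm : 3 ≤ m)
    (hx : ∀ i, x i ≠ 0) (hsum : ∑ i, x i = 0) {j : ℕ} (hj : j < 2 ∨ j = m) :
    sm S x (tail m j) = 0 := by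
  classical
  unfold sm
  rw [Finset.filter_eq_empty_iff.mpr, Finset.sum_empty]
  intro v hv h
  have h1 := sup_card v x (by omega) hx hsum
  have h2 := ((mem_PF _ hx v).mp hv).2
  rw [h] at h1 h2
  rw [tail_card (by omega)] at h1
  rcases hj with hj | hj
  · omega
  · obtain ⟨i, hi⟩ := h2
    have := mem_tail.mp hi
    have := i.2
    omega

lemma WF_cost [NeZero m] (S : Finset (HeightOneSpectrum (𝓞 K))) {y : Fin m → K} (hm : 3 ≤ m)
    (hy : ∀ i, y i ≠ 0) (hsum : ∑ i, y i = 0) :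
    ∑ v ∈ WF S y, lnv v + ∑ j ∈ Finset.range (m + 1), sm S y (tail m j) ≤
      ∑ v ∈ S, lnv v + ∑ v ∈ PF (S : Set (HeightOneSpectrum (𝓞 K))) y, lnv v := by
  classical
  set P := PF (S : Set (HeightOneSpectrum (𝓞 K))) y with hP
  have h1 : ∑ v ∈ WF S y, lnv v ≤ ∑ v ∈ S, lnv v +
      ∑ v ∈ P.filter (fun v => ¬ ∃ j : ℕ, 2 ≤ j ∧ j < m ∧ sup v y = tail m j), lnv v := by
    unfold WF
    have h2 := Finset.sum_union_inter (s₁ := S)
      (s₂ := P.filter (fun v => ¬ ∃ j : ℕ, 2 ≤ j ∧ j < m ∧ sup v y = tail m j)) (f := lnv)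
    have h3 : 0 ≤ ∑ v ∈ S ∩ P.filter
      (fun v => ¬ ∃ j : ℕ, 2 ≤ j ∧ j < m ∧ sup v y = tail m j), lnv v :=
      Finset.sum_nonneg fun v _ => (lnv_pos v).le
    have h4 : ∑ v ∈ S ∪ P.filter (fun v => ¬ ∃ j : ℕ, 2 ≤ j ∧ j < m ∧ sup v y = tail m j),
        lnv v ≤ ∑ v ∈ S, lnv v +
      ∑ v ∈ P.filter (fun v => ¬ ∃ j : ℕ, 2 ≤ j ∧ j < m ∧ sup v y = tail m j), lnv v := by
      linarith
    convert h4
  have h2 : ∑ j ∈ Finset.range (m + 1), sm S y (tail m j) ≤
      ∑ v ∈ P.filter (fun v => ∃ j : ℕ, 2 ≤ j ∧ j < m ∧ sup v y = tail m j), lnv v := by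
    have h3 : ∀ j ∈ Finset.range (m + 1), sm S y (tail m j) =
        ∑ v ∈ P, if (2 ≤ j ∧ j < m ∧ sup v y = tail m j) then lnv v else 0 := by
      intro j hj
      by_cases hj2 : 2 ≤ j ∧ j < m
      · unfold sm
        rw [Finset.sum_filter]
        refine Finset.sum_congr rfl fun v _ => ?_
        simp [hj2.1, hj2.2]
      · rw [sm_eq_zero S hm hy hsum (by have := Finset.mem_range.mp hj; omega)]
        symm
        apply Finset.sum_eq_zero
        intro v _
        rw [if_neg]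
        rintro ⟨h4, h5, _⟩
        exact hj2 ⟨h4, h5⟩
    rw [Finset.sum_congr rfl h3, Finset.sum_comm, Finset.sum_filter]
    refine Finset.sum_le_sum fun v _ => ?_
    split_ifs with h4
    · obtain ⟨j, hj1, hj2, hj3⟩ := h4
      rw [Finset.sum_eq_single j]
      · rw [if_pos ⟨hj1, hj2, hj3⟩]
      · intro j' _ hne
        rw [if_neg]
        rintro ⟨_, h5, h6⟩
        exact hne (tail_inj h5 hj2 (h6.symm.trans hj3))
      · intro h5
        exact absurd (Finset.mem_range.mpr (by omega)) h5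
    · apply le_of_eq
      apply Finset.sum_eq_zero
      intro j _
      rw [if_neg]
      intro h5
      exact h4 ⟨j, h5⟩
  have h3 := Finset.sum_filter_add_sum_filter_not P
    (fun v => ∃ j : ℕ, 2 ≤ j ∧ j < m ∧ sup v y = tail m j) (fun v => lnv v)
  linarith

end E

/-! ## Module E : the theorem -/

open Classical in
theorem nterm {K : Type*} [Field K] [NumberField K] (m : ℕ) (hm : 3 ≤ m)
    (S : Set (HeightOneSpectrum (𝓞 K))) (hS : S.Finite) (lam c η : ℝ) (hlam : 0 ≤ lam)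
    (hη : 0 < η) :
    ∃ C : ℝ, ∀ B : ℝ, 1 ≤ B → ∀ X : Finset (Fin m → K),
      (∀ x ∈ X, ∑ i, x i = 0) →
      (∀ x ∈ X, ∀ I : Finset (Fin m), I.Nonempty → I ≠ Finset.univ → ∑ i ∈ I, x i ≠ 0) →
      (∀ x ∈ X, ∀ y ∈ X, x ≠ y → ∀ t : K, y ≠ t • x) →
      (∀ x ∈ X, mulHeight x ≤ B) →
      (∀ x ∈ X, radS S x ≤ lam * logHeight x + c) →
      (X.card : ℝ) ≤ C * B ^ ((1 - 1 / (m.choose (m / 2) : ℝ)) * lam + η) := by
  have : NeZero m := ⟨by omega⟩
  set Sf : Finset (HeightOneSpectrum (𝓞 K)) := hS.toFinset with hSf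
  have hSc : (Sf : Set (HeightOneSpectrum (𝓞 K))) = S := hS.coe_toFinset
  set CS : ℝ := ∑ v ∈ Sf, lnv v with hCS
  have hCS0 : 0 ≤ CS := Finset.sum_nonneg fun v _ => (lnv_pos v).le
  set b : ℝ := (m.choose (m / 2) : ℝ) with hb
  have hb1 : 1 ≤ b := by
    have : 0 < m.choose (m / 2) := Nat.choose_pos (by omega)
    rw [hb]
    exact_mod_cast this
  have hb2 : 0 ≤ 1 - 1 / b := by
    have : 1 / b ≤ 1 := by rw [div_le_one (by linarith)]; exact hb1
    linarith
  have hb3 : 1 - 1 / b ≤ 1 := by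
    have : 0 ≤ 1 / b := by positivity
    linarith
  obtain ⟨C, hC, hcore⟩ := core_count K m hm (CS + lam + |c|) η (by positivity) hη
  refine ⟨(Fintype.card (Equiv.Perm (Fin m)) : ℝ) * (C * Real.exp (CS + |c|)), ?_⟩
  intro B hB X hsum hsub hprop hht hrad
  have hB0 : 0 < B := by linarith
  set β : ℝ := Real.log B with hβ
  have hβ0 : 0 ≤ β := Real.log_nonneg hB
  have hx0 : ∀ x ∈ X, ∀ i, x i ≠ 0 := by
    intro x hx i
    have h1 := hsub x hx {i} (Finset.singleton_nonempty i) (by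
      intro h
      have h2 := congrArg Finset.card h
      rw [Finset.card_singleton, Finset.card_univ, Fintype.card_fin] at h2
      omega)
    rwa [Finset.sum_singleton] at h1
  have hlog : ∀ x ∈ X, logHeight x ≤ β := by
    intro x hx
    rw [logHeight_eq_log_mulHeight]
    exact Real.log_le_log (mulHeight_pos x) (hht x hx)
  -- the chains
  have hchain : ∀ x : Fin m → K, ∃ σ : Equiv.Perm (Fin m), (∑ A, sm Sf x A) / b ≤
      ∑ j ∈ Finset.range (m + 1), sm Sf x ((tail m j).map σ.toEmbedding) := fun x =>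
    exists_chain m (sm Sf x) (sm_nonneg Sf x)
  choose σ hσ using hchain
  have hclass : ∀ τ : Equiv.Perm (Fin m), ((X.filter (fun x => σ x = τ)).card : ℝ) ≤
      C * Real.exp (CS + |c|) * B ^ ((1 - 1 / b) * lam + η) := by
    intro τ
    set Y := (X.filter (fun x => σ x = τ)).image (yp τ) with hY
    have hinj : Y.card = (X.filter (fun x => σ x = τ)).card := by
      rw [hY]
      apply Finset.card_image_of_injOn
      intro x hx x' hx' h
      have hx := (Finset.mem_filter.mp (Finset.mem_coe.mp hx)).1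
      have hx' := (Finset.mem_filter.mp (Finset.mem_coe.mp hx')).1
      by_contra hne
      apply hprop x hx x' hx' hne (x' (τ 0) / x (τ 0))
      ext i
      have h1 := congrFun h (τ.symm i)
      simp only [yp, Equiv.apply_symm_apply] at h1
      rw [div_eq_div_iff (hx0 x hx _) (hx0 x' hx' _)] at h1
      rw [Pi.smul_apply, smul_eq_mul, div_mul_eq_mul_div, eq_div_iff (hx0 x hx _)]
      linear_combination -h1
    rw [← hinj]
    have hYm : ∀ y ∈ Y, ∃ x ∈ X, σ x = τ ∧ yp τ x = y := by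
      intro y hy
      obtain ⟨x, hx, hxy⟩ := Finset.mem_image.mp hy
      obtain ⟨h1, h2⟩ := Finset.mem_filter.mp hx
      exact ⟨x, h1, h2, hxy⟩
    have hy0 : ∀ x ∈ X, yp τ x 0 = 1 := by
      intro x hx
      exact div_self (hx0 x hx _)
    have hsub' : ∀ x ∈ X, ∀ A : Finset (Fin m), ∑ i ∈ A, yp τ x i =
        (∑ i ∈ A.map τ.toEmbedding, x i) / x (τ 0) := by
      intro x _ A
      rw [Finset.sum_map, Finset.sum_div]
      rfl
    have hysum : ∀ x ∈ X, ∑ i, yp τ x i = 0 := by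
      intro x hx
      rw [hsub' x hx]
      have : (Finset.univ : Finset (Fin m)).map τ.toEmbedding = Finset.univ := by simp
      rw [this, hsum x hx, zero_div]
    have hyh : ∀ x ∈ X, logHeight (yp τ x) = logHeight x := by
      intro x hx
      have h1 : yp τ x = (x (τ 0))⁻¹ • (x ∘ τ) := by
        ext i
        simp only [yp, Pi.smul_apply, Function.comp_apply, smul_eq_mul]
        rw [div_eq_inv_mul]
      rw [h1, logHeight_smul_eq_logHeight _ (inv_ne_zero (hx0 x hx _)),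
        logHeight_comp_equiv]
    have hz : CS + (1 - 1 / b) * (lam * β) + |c| ≤ (CS + lam + |c|) * (β + 1) := by
      have h1 : (1 - 1 / b) * (lam * β) ≤ 1 * (lam * β) :=
        mul_le_mul_of_nonneg_right hb3 (by positivity)
      have h2 := abs_nonneg c
      nlinarith [mul_nonneg hCS0 hβ0, mul_nonneg hlam hβ0, mul_nonneg h2 hβ0]
    have h1 := hcore β (CS + (1 - 1 / b) * (lam * β) + |c|) hβ0 hz Y (WF Sf) ?_ ?_ ?_ ?_ ?_ ?_ ?_
    · refine h1.trans (le_of_eq ?_)
      rw [mul_assoc, Real.rpow_def_of_pos hB0, ← Real.exp_add]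
      congr 2
      rw [← hβ]
      ring
    · intro y hy
      obtain ⟨x, hx, _, rfl⟩ := hYm y hy
      exact hy0 x hx
    · intro y hy
      obtain ⟨x, hx, _, rfl⟩ := hYm y hy
      exact yp_ne_zero τ (hx0 x hx)
    · intro y hy
      obtain ⟨x, hx, _, rfl⟩ := hYm y hy
      exact hysum x hx
    · intro y hy j hj1 hjm
      obtain ⟨x, hx, _, rfl⟩ := hYm y hy
      rw [hsub' x hx]
      apply div_ne_zero _ (hx0 x hx _)
      apply hsub x hx
      · rw [Finset.map_nonempty]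
        exact ⟨⟨0, by omega⟩, by simp; omega⟩
      · intro h
        have h2 := congrArg Finset.card h
        rw [Finset.card_map, Fin.card_filter_val_lt, Finset.card_univ, Fintype.card_fin] at h2
        omega
    · intro y hy i
      obtain ⟨x, hx, _, rfl⟩ := hYm y hy
      exact ((logHeight_coord _ 0 (hy0 x hx) i).trans (le_of_eq (hyh x hx))).trans (hlog x hx)
    · intro y hy
      obtain ⟨x, hx, _, rfl⟩ := hYm y hy
      exact chainOff_WF Sf (yp_ne_zero τ (hx0 x hx)) (hy0 x hx)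
    · intro y hy
      obtain ⟨x, hx, hxσ, rfl⟩ := hYm y hy
      have h2 := WF_cost Sf hm (yp_ne_zero τ (hx0 x hx)) (hysum x hx)
      have h3 := hσ x
      rw [hxσ, sm_sum] at h3
      have h4 : ∑ j ∈ Finset.range (m + 1), sm Sf x ((tail m j).map τ.toEmbedding) =
          ∑ j ∈ Finset.range (m + 1), sm Sf (yp τ x) (tail m j) :=
        Finset.sum_congr rfl fun j _ => sm_yp Sf τ (hx0 x hx) _
      rw [h4] at h3
      rw [PF_yp _ τ (hx0 x hx)] at h2
      have h5 := hrad x hx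
      rw [radS_eq S (hx0 x hx), ← hSc] at h5
      set R := ∑ v ∈ PF (Sf : Set (HeightOneSpectrum (𝓞 K))) x, lnv v with hR
      have h6 : lam * logHeight x ≤ lam * β := mul_le_mul_of_nonneg_left (hlog x hx) hlam
      have h7 : R ≤ lam * β + |c| := by
        have := le_abs_self c
        linarith
      have h8 : R - R / b = (1 - 1 / b) * R := by ring
      have h9 : (1 - 1 / b) * R ≤ (1 - 1 / b) * (lam * β + |c|) :=
        mul_le_mul_of_nonneg_left h7 hb2
      have h10 : (1 - 1 / b) * |c| ≤ 1 * |c| :=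
        mul_le_mul_of_nonneg_right hb3 (abs_nonneg c)
      linarith
  have hcard : X.card = ∑ τ : Equiv.Perm (Fin m), (X.filter (fun x => σ x = τ)).card :=
    Finset.card_eq_sum_card_fiberwise (fun x _ => Finset.mem_coe.mpr (Finset.mem_univ _))
  rw [hcard]
  push_cast
  calc ∑ τ : Equiv.Perm (Fin m), ((X.filter (fun x => σ x = τ)).card : ℝ)
      ≤ ∑ τ : Equiv.Perm (Fin m), C * Real.exp (CS + |c|) * B ^ ((1 - 1 / b) * lam + η) :=
        Finset.sum_le_sum fun τ _ => hclass τ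
    _ = _ := by
        rw [Finset.sum_const, Finset.card_univ, nsmul_eq_mul]
        ring

end Pool.Agent.Lib.MP_44a246_nt.NT
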